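import Pool.Agent.T2H63.CZ.Stm
import Pool.Agent.R321.RC1

set_option autoImplicit false
set_option maxHeartbeats 4000000

open Complex Filter Topology Set MeasureTheory
open H370 (zset mult NN Nd Ns GoodL)

namespace Pool.Agent.T2H63.CZ

open H385
open Pool.Agent.T2H25.ZR
open Pool.Agent.R321.RC (PF sps sps_norm_le sum_mult)

theorem AV_set (M X Y : ℕ) : primSetM M X Y =
    ((Finset.Ioc X Y).filter (fun q => Nat.Coprime q M)).sigma PF := rfl

theorem T_AV : S_AV := by
  intro M X Y hX n hn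
  have hX0 : (0 : ℝ) < X := by exact_mod_cast hX
  rw [AV_set, Finset.sum_sigma]
  have e1 : ∀ q ∈ (Finset.Ioc X Y).filter (fun q => Nat.Coprime q M),
      ∑ χ ∈ PF q, ((1 / (q : ℝ) ^ 2 : ℝ) : ℂ) * χ (n : ZMod q) =
      ((1 / (q : ℝ) ^ 2 : ℝ) : ℂ) * sps q n := by
    intro q _
    rw [← Finset.mul_sum]
    rfl
  simp only
  rw [Finset.sum_congr rfl e1]
  refine (norm_sum_le _ _).trans ?_
  refine (Finset.sum_le_sum_of_subset_of_nonneg (Finset.filter_subset _ _)
    (fun _ _ _ => norm_nonneg _)).trans ?_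
  have e2 : ∀ q ∈ Finset.Ioc X Y, ‖((1 / (q : ℝ) ^ 2 : ℝ) : ℂ) * sps q n‖ ≤
      ∑ d ∈ (n - 1).divisors, (if d ∣ q then (d : ℝ) / (q : ℝ) ^ 2 else 0) := by
    intro q hq
    rw [Finset.mem_Ioc] at hq
    rw [norm_mul, Complex.norm_real, Real.norm_of_nonneg (by positivity)]
    refine (mul_le_mul_of_nonneg_left (sps_norm_le (by omega) hn) (by positivity)).trans
      (le_of_eq ?_)
    rw [Finset.mul_sum]
    refine Finset.sum_congr rfl fun d _ => ?_
    split_ifs
    · ring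
    · ring
  refine (Finset.sum_le_sum e2).trans ?_
  rw [Finset.sum_comm]
  have e3 : ∀ d ∈ (n - 1).divisors, ∑ q ∈ Finset.Ioc X Y,
      (if d ∣ q then (d : ℝ) / (q : ℝ) ^ 2 else 0) ≤ 2 / (X : ℝ) := by
    intro d hd
    have hd0 : 0 < d := Nat.pos_of_mem_divisors hd
    have hdr : (0 : ℝ) < d := by exact_mod_cast hd0
    rcases le_or_gt X Y with h | h
    · obtain ⟨k, rfl⟩ := Nat.exists_eq_add_of_le h
      refine (sum_mult d hd0 X hX k).trans ?_
      have : 0 ≤ 2 / ((d : ℝ) * (((X + k) / d + 1 : ℕ) : ℝ)) := by positivity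
      linarith
    · rw [Finset.Ioc_eq_empty (by omega), Finset.sum_empty]
      positivity
  refine (Finset.sum_le_sum e3).trans (le_of_eq ?_)
  rw [Finset.sum_const, nsmul_eq_mul]
  ring

end Pool.Agent.T2H63.CZ
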