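import Pool.Agent.T2H63.CZ.T_LV

set_option autoImplicit false
set_option maxHeartbeats 4000000

open Complex Filter Topology Set MeasureTheory
open H370 (zset mult NN Nd Ns GoodL)

namespace Pool.Agent.T2H63.CZ

open H385
open Pool.Agent.T2H25.ZR

theorem CN_vv_one (α : ℝ) (h : α ≤ 49 / 100) : vv α = 1 := by
  unfold vv
  rw [max_eq_left (by linarith), min_eq_right zero_le_one, add_zero]

theorem CN_vv_cont : Continuous vv := by
  unfold vv
  fun_prop

theorem CN_int (γ : ℝ) (h0 : 0 < γ) (hπ : γ < Real.pi) :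
    (∫ α in (0 : ℝ)..1, α * (vv α * Rw γ α)) ≤
      (∫ α in (0 : ℝ)..1, α * Rw γ α) + ∫ α in (49 / 100 : ℝ)..1, α * Rw γ α := by
  have hc := Rw_cont γ h0 hπ
  have hv := CN_vv_cont
  have c1 : Continuous (fun α : ℝ => α * (vv α * Rw γ α)) := by fun_prop
  have c2 : Continuous (fun α : ℝ => α * Rw γ α) := by fun_prop
  rw [← intervalIntegral.integral_add_adjacent_intervals (b := (49 / 100 : ℝ))
    (c1.intervalIntegrable 0 (49 / 100)) (c1.intervalIntegrable (49 / 100) 1),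
    ← intervalIntegral.integral_add_adjacent_intervals (a := (0 : ℝ)) (b := (49 / 100 : ℝ)) (c := 1)
    (f := fun α : ℝ => α * Rw γ α)
    (c2.intervalIntegrable 0 (49 / 100)) (c2.intervalIntegrable (49 / 100) 1)]
  have i1 : (∫ α in (0 : ℝ)..(49 / 100), α * (vv α * Rw γ α)) =
      ∫ α in (0 : ℝ)..(49 / 100), α * Rw γ α := by
    refine intervalIntegral.integral_congr (fun α hα => ?_)
    rw [Set.uIcc_of_le (by norm_num)] at hα
    show α * (vv α * Rw γ α) = α * Rw γ α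
    rw [CN_vv_one α hα.2, one_mul]
  have i2 : (∫ α in (49 / 100 : ℝ)..1, α * (vv α * Rw γ α)) ≤
      2 * ∫ α in (49 / 100 : ℝ)..1, α * Rw γ α := by
    rw [← intervalIntegral.integral_const_mul]
    refine intervalIntegral.integral_mono_on (by norm_num) (c1.intervalIntegrable _ _)
      ((c2.const_mul 2 : Continuous _).intervalIntegrable _ _) (fun α hα => ?_)
    have hα0 : 0 ≤ α := by linarith [hα.1]
    have h1 : vv α * Rw γ α ≤ 2 * Rw γ α :=
      mul_le_mul_of_nonneg_right (LV_le α) (Rw_nonneg γ h0 hπ α)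
    have h2 := mul_le_mul_of_nonneg_left h1 hα0
    linarith
  linarith

theorem T_CN (h1 : S_YR) (h2 : S_LV) (h3 : S_HC) (h4 : S_FC) (h5 : S_NU) : S_CN := by
  intro A hA M hM c₁ c₂ hc₁ hc₂ C0 hS₁ hS₂ F hF
  have h0 : (0 : ℝ) < 3 := by norm_num
  have hπ : (3 : ℝ) < Real.pi := Real.pi_gt_three
  set R0 : ℝ := Rw 3 0 with hR0
  have hR0n : 0 ≤ R0 := Rw_nonneg 3 h0 hπ 0
  set J : ℝ := ∫ α in (0 : ℝ)..1, α * (vv α * Rw 3 α) with hJ
  have hJn : 0 ≤ J := intervalIntegral.integral_nonneg zero_le_one (fun α hα =>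
    mul_nonneg hα.1 (mul_nonneg (by linarith [LV_ge α]) (Rw_nonneg 3 h0 hπ α)))
  have hJle := CN_int 3 h0 hπ
  have h5' : Rw 3 0 + 4 * (∫ α in (0 : ℝ)..1, α * Rw 3 α) +
    4 * (∫ α in (49 / 100 : ℝ)..1, α * Rw 3 α) < 1.87 := h5
  have hκ : R0 + 4 * J < 1.87 := by
    rw [← hJ] at hJle
    rw [← hR0] at h5'
    linarith
  set e : ℝ := 1.87 - (R0 + 4 * J) with he
  have he0 : 0 < e := by rw [he]; linarith
  -- choose β
  set s : ℝ := min (1 / 2) (e / (2 * (R0 + 1))) with hs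
  have hs0 : 0 < s := by positivity
  have hs1 : s ≤ 1 / 2 := min_le_left _ _
  have hs2 : R0 * s ≤ e / 2 := by
    have h1 : s ≤ e / (2 * (R0 + 1)) := min_le_right _ _
    calc R0 * s ≤ R0 * (e / (2 * (R0 + 1))) := mul_le_mul_of_nonneg_left h1 hR0n
      _ = e / 2 * (R0 / (R0 + 1)) := by field_simp
      _ ≤ e / 2 * 1 := by
        refine mul_le_mul_of_nonneg_left ?_ (by linarith)
        rw [div_le_one (by positivity)]; linarith
      _ = e / 2 := mul_one _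
  set β : ℝ := 2 - s with hβ
  have hβ1 : 1 < β := by rw [hβ]; linarith
  have hβ2 : β < 2 := by rw [hβ]; linarith
  have hβ0 : 0 < β := by linarith
  have e2 : 2 * R0 / β ≤ R0 + e / 2 := by
    rw [div_le_iff₀ hβ0]
    have h1 : (R0 + e / 2) * β = 2 * R0 - R0 * s + e / 2 * β := by rw [hβ]; ring
    rw [h1]
    have h2 : e / 2 * 1 ≤ e / 2 * β := mul_le_mul_of_nonneg_left hβ1.le (by linarith)
    linarith
  have hk : 0 ≤ 2 * β * J := by positivity
  have hL := h2 3 h0 hπ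
  have y1 : HYR M c₁ (fun α => vv α * Rw 3 α) β (2 * β * J) :=
    h1 M hM 1 le_rfl c₁ hc₁ C0 hS₁ _ _ hL β hβ0 hβ2
  have y2 : HYR M c₂ (fun α => vv α * Rw 3 α) β (2 * β * J) :=
    h1 M hM 1 le_rfl c₂ hc₂ C0 hS₂ _ _ hL β hβ0 hβ2
  have y3 := h3 M hM c₁ c₂ hc₁ hc₂ 3 β _ _ h0 hπ hβ1 hβ2 hk hk y1 y2
  obtain ⟨K, η, X0, hK, hη, hX0, h⟩ := h4 A hA M c₁ c₂ F hF 3 β _ h0 hπ hβ0
    (by positivity) hR0n y3 (e / 2) (by positivity)
  refine ⟨K, η, X0, hK, hη, hX0, ?_⟩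
  intro X Y T a1 a2 a3 a4 a5
  obtain ⟨b1, b2⟩ := h X Y T a1 a2 a3 a4 a5
  have hN : 0 ≤ primFamM M X Y (fun q χ => (NN (F q χ) T (2 * T) : ℝ)) :=
    primFamM_nonneg _ _ _ _ (fun _ _ => Nat.cast_nonneg _)
  have hJ2 : (2 * β * J + 2 * β * J) / 2 ≤ 4 * J := by
    have h1 : β * J ≤ 2 * J := mul_le_mul_of_nonneg_right hβ2.le hJn
    linarith
  have hcc2 : 2 * R0 / β + (2 * β * J + 2 * β * J) / 2 + e / 2 ≤ 1.87 := by
    have : R0 + 4 * J + e = 1.87 := by rw [he]; ring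
    linarith
  have hcc' := mul_le_mul_of_nonneg_right hcc2 hN
  have l1 := primFamM_lin M X Y 2 1 (fun q χ => (NN (F q χ) T (2 * T) : ℝ))
    (fun q χ => (Ns (F q χ) T (2 * T) : ℝ))
  have l2 := primFamM_lin M X Y 3 2 (fun q χ => (NN (F q χ) T (2 * T) : ℝ))
    (fun q χ => (Nd (F q χ) T (2 * T) : ℝ))
  simp only [one_mul] at l1
  rw [l1] at b1
  rw [l2] at b2
  constructor
  · linarith
  · linarith

end Pool.Agent.T2H63.CZ
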