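import Pool.Agent.T2H63.CZ.Stm

/-!
# Project CZ, package GD: the product `L(s, χ ψ₁) L(s + iα, χ⁻¹ ψ₂)` satisfies the conditions `GoodD`
-/

set_option autoImplicit false
set_option maxHeartbeats 4000000

open Complex Filter Topology Set MeasureTheory

namespace Pool.Agent.T2H63.CZ

open H385
open Pool.Agent.T2H25.ZR
open Pool.Agent.R321.RC (goodD_mul)

theorem GD_inv {q : ℕ} {χ : DirichletCharacter ℂ q} (h : χ.IsPrimitive) : χ⁻¹.IsPrimitive := by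
  unfold DirichletCharacter.IsPrimitive at h ⊢
  rw [DirichletCharacter.conductor_inv]
  exact h

theorem GD_both (f₁ f₂ : ℕ) [NeZero f₁] [NeZero f₂] (ψ₁ : DirichletCharacter ℂ f₁)
    (ψ₂ : DirichletCharacter ℂ f₂) (h₁ : ψ₁.IsPrimitive) (h₂ : ψ₂.IsPrimitive) (α : ℝ) (hα : 0 ≤ α) :
    ∃ A : ℝ, 1 ≤ A ∧ ∀ (q : ℕ) (χ : DirichletCharacter ℂ q), 1 ≤ q →
      Nat.Coprime q (f₁ * f₂) → χ.IsPrimitive →
      GoodU A ((q : ℝ) * f₁) (Lt ψ₁ q χ) (fun n => χ (n : ZMod q) * ψ₁ (n : ZMod f₁) *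
        (ArithmeticFunction.vonMangoldt n : ℂ)) ∧
      GoodU A ((1 + α) * ((q : ℝ) * f₂)) (sh α (Lt ψ₂ q χ⁻¹)) (fun n => χ⁻¹ (n : ZMod q) *
        ψ₂ (n : ZMod f₂) * (ArithmeticFunction.vonMangoldt n : ℂ) * ni α n) := by
  obtain ⟨A, hA, h⟩ := good_both ψ₁ ψ₂ α h₁ h₂ hα
  exact ⟨A, hA, fun q χ hq hc hχ => ⟨(h q χ hq hc hχ).1, (h q χ⁻¹ hq hc (GD_inv hχ)).2⟩⟩

theorem T_GD : S_GD := by
  intro f₁ f₂ _ _ ψ₁ ψ₂ h₁ h₂ α hα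
  refine ⟨GD_both f₁ f₂ ψ₁ ψ₂ h₁ h₂ α hα, fun M hM => ?_⟩
  obtain ⟨A, hA, hg⟩ := GD_both f₁ f₂ ψ₁ ψ₂ h₁ h₂ α hα
  set B : ℝ := 2 * A ^ 2 with hB
  have hB1 : 1 ≤ B := by
    have : 1 ≤ A ^ 2 := one_le_pow₀ hA
    rw [hB]; linarith
  have hf1 : (1 : ℝ) ≤ f₁ := by exact_mod_cast (NeZero.one_le : 1 ≤ f₁)
  have hf2 : (1 : ℝ) ≤ f₂ := by exact_mod_cast (NeZero.one_le : 1 ≤ f₂)
  set R : ℝ := Real.sqrt ((1 + α) * ((f₁ : ℝ) * f₂)) with hR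
  have hR1 : 1 ≤ R := by
    rw [hR, Real.one_le_sqrt]
    exact one_le_mul_of_one_le_of_one_le (by linarith) (one_le_mul_of_one_le_of_one_le hf1 hf2)
  refine ⟨B * R ^ B + 2 * R, ?_, ?_⟩
  · have : 0 ≤ B * R ^ B := by positivity
    linarith
  · intro q χ hq hc hχ
    obtain ⟨g1, g2⟩ := hg q χ (by omega) (hM q hc) hχ
    have hq1 : (1 : ℝ) ≤ q := by exact_mod_cast (show 1 ≤ q by omega)
    have k1 : (1 : ℝ) ≤ (q : ℝ) * f₁ := one_le_mul_of_one_le_of_one_le hq1 hf1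
    have k2 : (1 : ℝ) ≤ (1 + α) * ((q : ℝ) * f₂) :=
      one_le_mul_of_one_le_of_one_le (by linarith) (one_le_mul_of_one_le_of_one_le hq1 hf2)
    have h := goodD_mul hA k1 k2 g1 g2
    have e1 : Real.sqrt ((q : ℝ) * f₁ * ((1 + α) * ((q : ℝ) * f₂))) = R * q := by
      rw [show (q : ℝ) * f₁ * ((1 + α) * ((q : ℝ) * f₂)) = ((1 + α) * ((f₁ : ℝ) * f₂)) * (q : ℝ) ^ 2 by ring,
        Real.sqrt_mul (by positivity), Real.sqrt_sq (by positivity)]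
    rw [e1] at h
    have h2 := goodD_rescale hB1 hq1 hR1 h
    have e3 : (fun n : ℕ => χ (n : ZMod q) * ψ₁ (n : ZMod f₁) * (ArithmeticFunction.vonMangoldt n : ℂ) +
        χ⁻¹ (n : ZMod q) * ψ₂ (n : ZMod f₂) * (ArithmeticFunction.vonMangoldt n : ℂ) * ni α n) =
        cc2 (fun n => ψ₁ (n : ZMod f₁)) (fun n => ψ₂ (n : ZMod f₂) * ni α n) q χ := by
      funext n
      unfold cc2
      ring
    rw [e3] at h2
    exact h2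

end Pool.Agent.T2H63.CZ
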