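import Pool.Agent.T2H63.CZ.Stm

set_option autoImplicit false
set_option maxHeartbeats 4000000

open Complex Filter Topology Set MeasureTheory
open H370 (zset mult NN Nd Ns GoodL)

namespace Pool.Agent.T2H63.CZ

open H385
open Pool.Agent.T2H25.ZR

theorem HC_vv_ge (x : ℝ) : 1 ≤ vv x := by
  unfold vv
  have : 0 ≤ min 1 (max 0 (200 * (x - 49 / 100))) := le_min zero_le_one (le_max_left _ _)
  linarith

theorem HC_vv_le (x : ℝ) : vv x ≤ 2 := by
  unfold vv
  have : min 1 (max 0 (200 * (x - 49 / 100))) ≤ 1 := min_le_left _ _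
  linarith

theorem HC_vv_two {x : ℝ} (hx : 99 / 200 ≤ x) : vv x = 2 := by
  unfold vv
  have h1 : (1 : ℝ) ≤ max 0 (200 * (x - 49 / 100)) := le_max_of_le_right (by linarith)
  rw [min_eq_left h1]
  norm_num

theorem HC_vv_cont : Continuous vv := by
  unfold vv
  fun_prop

theorem HC_sqrt_add (a b : ℝ) (ha : 0 ≤ a) (hb : 0 ≤ b) : Real.sqrt (a + b) ≤ Real.sqrt a + Real.sqrt b := by
  rw [Real.sqrt_le_left (by positivity)]
  have h1 := Real.sq_sqrt ha
  have h2 := Real.sq_sqrt hb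
  nlinarith [mul_nonneg (Real.sqrt_nonneg a) (Real.sqrt_nonneg b)]

theorem HC_exp_neg_le {x : ℝ} (hx : 0 < x) : Real.exp (-x) ≤ 1 / x := by
  rw [Real.exp_neg, ← one_div]
  apply one_div_le_one_div_of_le hx
  linarith [Real.add_one_le_exp x]

theorem HC_prim_nonneg (M X Y : ℕ) (g : (q : ℕ) → DirichletCharacter ℂ q → ℝ → ℝ)
    (hg : ∀ q χ t, 0 ≤ g q χ t) : 0 ≤ ∫ t : ℝ, primFamM M X Y (fun q χ => g q χ t) :=
  integral_nonneg fun t => primFamM_nonneg M X Y _ (fun q χ => hg q χ t)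

theorem T_HC (hMS : S_MS) : S_HC := by
  intro M hM c₁ c₂ hc1 hc2 γ β k₁ k₂ h0 hπ hβ1 hβ2 hk1 hk2 H1 H2 ε hε
  have hpi := Real.pi_pos
  have hβ : 0 < β := by linarith
  set R0 : ℝ := Rw γ 0 with hR0
  have hR0n : 0 ≤ R0 := Rw_nonneg γ h0 hπ 0
  obtain ⟨C, hC, hms⟩ := hMS (1 / 1000) (by norm_num) (by norm_num)
  obtain ⟨C4, hC4, hmass⟩ := prim_mass_M M hM
  have hc0 := cM_pos M hM
  obtain ⟨K₁, η₁, X₁, hK₁, hη₁, hX₁, hm1⟩ := H1 (ε / 4) (by positivity)
  obtain ⟨K₂, η₂, X₂, hK₂, hη₂, hX₂, hm2⟩ := H2 (ε / 4) (by positivity)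
  set L0 : ℝ := 1 + 200 * (8 * Real.pi * (R0 + 1) * C / ε) + 400 * (4 * Real.sqrt C / ε) with hL0
  refine ⟨max (max K₁ K₂) (Real.exp ((C4 + 1) / cM M)), min η₁ η₂, max (max X₁ X₂) (Real.exp L0),
    le_max_of_le_left (le_max_of_le_left hK₁), lt_min hη₁ hη₂,
    le_max_of_le_left (le_max_of_le_left hX₁), ?_⟩
  intro X Y T hX hKX hYX hT1 hT2
  have hXX1 : X₁ ≤ X := ((le_max_left _ _).trans (le_max_left _ _)).trans hX
  have hXX2 : X₂ ≤ X := ((le_max_right _ _).trans (le_max_left _ _)).trans hX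
  have hXe : Real.exp L0 ≤ X := (le_max_right _ _).trans hX
  have hX1 : (1 : ℝ) ≤ X := hX₁.trans hXX1
  have hXpos : (0 : ℝ) < X := by linarith
  have hXn : 1 ≤ X := by exact_mod_cast hX1
  have hKX1 : K₁ * X ≤ Y :=
    (mul_le_mul_of_nonneg_right ((le_max_left _ _).trans (le_max_left _ _)) hXpos.le).trans hKX
  have hKX2 : K₂ * X ≤ Y :=
    (mul_le_mul_of_nonneg_right ((le_max_right _ _).trans (le_max_left _ _)) hXpos.le).trans hKX
  have hKX3 : Real.exp ((C4 + 1) / cM M) * X ≤ Y :=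
    (mul_le_mul_of_nonneg_right (le_max_right _ _) hXpos.le).trans hKX
  have hXYr : (X : ℝ) ≤ Y := by
    calc (X : ℝ) = 1 * X := (one_mul _).symm
      _ ≤ K₁ * X := mul_le_mul_of_nonneg_right hK₁ hXpos.le
      _ ≤ Y := hKX1
  have hXY : X ≤ Y := by exact_mod_cast hXYr
  have hYpos : (0 : ℝ) < Y := by linarith
  have hYX1 : (Y : ℝ) ≤ (X : ℝ) ^ (1 + η₁) :=
    hYX.trans (Real.rpow_le_rpow_of_exponent_le hX1 (by linarith [min_le_left η₁ η₂]))
  have hYX2 : (Y : ℝ) ≤ (X : ℝ) ^ (1 + η₂) :=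
    hYX.trans (Real.rpow_le_rpow_of_exponent_le hX1 (by linarith [min_le_right η₁ η₂]))
  have hT21 : T ≤ (X : ℝ) ^ η₁ := hT2.trans (Real.rpow_le_rpow_of_exponent_le hX1 (min_le_left η₁ η₂))
  have hT22 : T ≤ (X : ℝ) ^ η₂ := hT2.trans (Real.rpow_le_rpow_of_exponent_le hX1 (min_le_right η₁ η₂))
  set L : ℝ := Real.log X with hL
  have hLL0 : L0 ≤ L := by rw [hL, Real.le_log_iff_exp_le hXpos]; exact hXe
  have hsC : 0 ≤ Real.sqrt C := Real.sqrt_nonneg _
  have t1 : 0 ≤ 8 * Real.pi * (R0 + 1) * C / ε := by positivity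
  have t2 : 0 ≤ 4 * Real.sqrt C / ε := by positivity
  have hL1 : 1 ≤ L := by linarith
  have hLa : 200 * (8 * Real.pi * (R0 + 1) * C / ε) ≤ L := by linarith
  have hLb : 400 * (4 * Real.sqrt C / ε) ≤ L := by linarith
  have hLp : 0 < L := by linarith
  have hT1' : 1 ≤ T := le_trans (by nlinarith) hT1
  have hTp : 0 < T := by linarith
  have hXexp : (X : ℝ) = Real.exp L := by rw [hL, Real.exp_log hXpos]
  -- the mass
  set W : ℝ := WM M X Y with hW
  have hW1 : 1 ≤ W := by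
    have h1 := (abs_le.1 (hmass X Y hXn hXY)).1
    have h2 : (C4 + 1) / cM M ≤ Real.log ((Y : ℝ) / X) := by
      rw [Real.le_log_iff_exp_le (by positivity), le_div_iff₀ hXpos]
      exact hKX3
    rw [div_le_iff₀ hc0] at h2
    have h3 : primFamM M X Y (fun _ _ => 1) = W := rfl
    rw [h3] at h1
    have h4 : cM M * Real.log ((Y : ℝ) / X) = Real.log ((Y : ℝ) / X) * cM M := mul_comm _ _
    linarith
  have hW0 : 0 ≤ W := by linarith
  obtain ⟨Y₁, y11, y12, hy11, hy12, a1, a2, a3, a4, a5⟩ := hm1 X Y T hXX1 hKX1 hYX1 hT1 hT21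
  obtain ⟨Y₂, y21, y22, hy21, hy22, b1, b2, b3, b4, b5⟩ := hm2 X Y T hXX2 hKX2 hYX2 hT1 hT22
  rw [← hL] at a1 a2 b1 b2
  rw [← hL, ← hW] at a4 a5 b4 b5
  have hβL : 0 < β * L := by positivity
  set E : ℝ := C * (T * Real.exp (-(L / 200))) with hE
  have hE0 : 0 < E := by positivity
  have hnn1 : ∀ u ∈ Set.Icc 0 (β * L), 0 ≤ Y₁ u := fun u hu =>
    (HC_prim_nonneg M X Y (fun q χ t => ‖PA c₁ q χ T u t‖ ^ 2) (fun _ _ _ => by positivity)).trans (a1 u hu)
  have hnn2 : ∀ u ∈ Set.Icc 0 (β * L), 0 ≤ Y₂ u := fun u hu =>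
    (HC_prim_nonneg M X Y (fun q χ t => ‖PA c₂ q χ T u t‖ ^ 2) (fun _ _ _ => by positivity)).trans (b1 u hu)
  refine ⟨fun u => vv (u / (β * L)) * (Y₁ u + Y₂ u) + E,
    2 * (y11 + y21), 2 * (y12 + y22) + C * Real.exp (-(L / 200)), by positivity, by positivity, ?_, ?_, ?_, ?_, ?_⟩
  · intro u hu
    have hm := hms c₁ c₂ hc1 hc2 M X Y hXn T u (Y₁ u) (Y₂ u) hT1' hu.1 (a1 u hu) (b1 u hu)
    have hn1 := hnn1 u hu
    have hn2 := hnn2 u hu
    by_cases hα : 99 / 200 ≤ u / (β * L)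
    · refine hm.2.trans ?_
      show _ ≤ vv (u / (β * L)) * (Y₁ u + Y₂ u) + E
      rw [HC_vv_two hα]
      linarith
    · refine hm.1.trans ?_
      push Not at hα
      rw [div_lt_iff₀ hβL] at hα
      have hvv := HC_vv_ge (u / (β * L))
      have e1 : Real.exp ((1 + 2 * (1 / 1000)) * u) / (X : ℝ) ≤ Real.exp (-(L / 200)) := by
        rw [hXexp, ← Real.exp_sub]
        apply Real.exp_le_exp.2
        have : u ≤ 99 / 200 * (2 * L) := by nlinarith
        linarith
      have e2 : C * (T * Real.exp ((1 + 2 * (1 / 1000)) * u) / X) ≤ E := by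
        rw [hE]
        refine mul_le_mul_of_nonneg_left ?_ hC.le
        rw [mul_div_assoc]
        exact mul_le_mul_of_nonneg_left e1 hTp.le
      show _ ≤ vv (u / (β * L)) * (Y₁ u + Y₂ u) + E
      nlinarith
  · intro u hu
    have hn1 := hnn1 u hu
    have hn2 := hnn2 u hu
    have h1 := a2 u hu
    have h2 := b2 u hu
    have hvv := HC_vv_le (u / (β * L))
    have h3 : vv (u / (β * L)) * (Y₁ u + Y₂ u) ≤ 2 * (Y₁ u + Y₂ u) :=
      mul_le_mul_of_nonneg_right hvv (by linarith)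
    show vv (u / (β * L)) * (Y₁ u + Y₂ u) + E ≤ _
    have h4 : T * (2 * (y11 + y21) * (u + 1) + (2 * (y12 + y22) + C * Real.exp (-(L / 200)))) =
        2 * (T * (y11 * (u + 1) + y12) + T * (y21 * (u + 1) + y22)) + E := by
      rw [hE]; ring
    rw [h4]
    linarith
  · refine Continuous.intervalIntegrable ?_ _ _
    exact ((HC_vv_cont.comp (continuous_id.div_const _)).mul (a3.add b3)).add continuous_const
  · have hRc : Continuous (fun u : ℝ => Rw γ (u / (β * L))) :=
      (Rw_cont γ h0 hπ).comp (continuous_id.div_const _)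
    have hvc : Continuous (fun u : ℝ => vv (u / (β * L))) := HC_vv_cont.comp (continuous_id.div_const _)
    have i1 : IntervalIntegrable (fun u => vv (u / (β * L)) * Rw γ (u / (β * L)) * Y₁ u) volume 0 (β * L) :=
      ((hvc.mul hRc).mul a3).intervalIntegrable _ _
    have i2 : IntervalIntegrable (fun u => vv (u / (β * L)) * Rw γ (u / (β * L)) * Y₂ u) volume 0 (β * L) :=
      ((hvc.mul hRc).mul b3).intervalIntegrable _ _
    have i3 : IntervalIntegrable (fun u => Rw γ (u / (β * L)) * E) volume 0 (β * L) :=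
      (hRc.mul continuous_const).intervalIntegrable _ _
    have e1 : ∫ u in (0 : ℝ)..(β * L), Rw γ (u / (β * L)) * (vv (u / (β * L)) * (Y₁ u + Y₂ u) + E) =
        (∫ u in (0 : ℝ)..(β * L), vv (u / (β * L)) * Rw γ (u / (β * L)) * Y₁ u) +
        (∫ u in (0 : ℝ)..(β * L), vv (u / (β * L)) * Rw γ (u / (β * L)) * Y₂ u) +
        ∫ u in (0 : ℝ)..(β * L), Rw γ (u / (β * L)) * E := by
      rw [← intervalIntegral.integral_add i1 i2, ← intervalIntegral.integral_add (i1.add i2) i3]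
      exact intervalIntegral.integral_congr fun u _ => by ring
    rw [e1, mul_add, mul_add]
    have g2 : ∫ u in (0 : ℝ)..(β * L), Rw γ (u / (β * L)) * E ≤ ∫ u in (0 : ℝ)..(β * L), R0 * E := by
      refine intervalIntegral.integral_mono_on hβL.le i3 (continuous_const.intervalIntegrable _ _)
        fun u hu => ?_
      exact mul_le_mul_of_nonneg_right (Rw_le γ h0 hπ _ (div_nonneg hu.1 hβL.le)) hE0.le
    rw [intervalIntegral.integral_const, smul_eq_mul, sub_zero] at g2
    have hs1 : 1 ≤ Real.sqrt Real.pi := by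
      rw [Real.one_le_sqrt]; linarith [Real.pi_gt_three]
    have g3 : (2 / (Real.sqrt Real.pi * (β * L))) * (∫ u in (0 : ℝ)..(β * L), Rw γ (u / (β * L)) * E) ≤
        2 * (R0 * E) := by
      calc _ ≤ (2 / (Real.sqrt Real.pi * (β * L))) * (β * L * (R0 * E)) :=
            mul_le_mul_of_nonneg_left g2 (by positivity)
        _ = 2 / Real.sqrt Real.pi * (R0 * E) := by field_simp
        _ ≤ 2 * (R0 * E) := by
            refine mul_le_mul_of_nonneg_right (div_le_self (by norm_num) hs1) (by positivity)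
    have g4 : 2 * (R0 * E) ≤ T / (2 * Real.pi) * L * W * (ε / 2) := by
      have k1 : Real.exp (-(L / 200)) ≤ 1 / (L / 200) := HC_exp_neg_le (by positivity)
      have k2 : 8 * Real.pi * R0 * C * Real.exp (-(L / 200)) ≤ ε := by
        have k3 : 200 * (8 * Real.pi * (R0 + 1) * C) ≤ L * ε := by
          rwa [← mul_div_assoc, div_le_iff₀ hε] at hLa
        calc 8 * Real.pi * R0 * C * Real.exp (-(L / 200)) ≤ 8 * Real.pi * (R0 + 1) * C * (1 / (L / 200)) := by
              gcongr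
              linarith
          _ = (200 * (8 * Real.pi * (R0 + 1) * C)) * (1 / L) := by field_simp
          _ ≤ (L * ε) * (1 / L) := mul_le_mul_of_nonneg_right k3 (by positivity)
          _ = ε := by field_simp
      have k4 : 2 * (R0 * E) =
          T / (2 * Real.pi) * (8 * Real.pi * R0 * C * Real.exp (-(L / 200))) / 2 := by
        rw [hE]
        field_simp
        ring
      rw [k4]
      have k5 : T / (2 * Real.pi) * (8 * Real.pi * R0 * C * Real.exp (-(L / 200))) ≤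
          T / (2 * Real.pi) * ε := mul_le_mul_of_nonneg_left k2 (by positivity)
      have k6 : T / (2 * Real.pi) * ε * 1 ≤ T / (2 * Real.pi) * ε * (L * W) := by
        refine mul_le_mul_of_nonneg_left ?_ (by positivity)
        nlinarith
      nlinarith
    have g5 : T / (2 * Real.pi) * L * W * (k₁ + k₂ + ε) =
        T / (2 * Real.pi) * L * W * (k₁ + ε / 4) + T / (2 * Real.pi) * L * W * (k₂ + ε / 4) +
          T / (2 * Real.pi) * L * W * (ε / 2) := by
      ring
    rw [g5]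
    linarith
  · have hq2 : Real.sqrt 2 ≤ 3 / 2 := by
      rw [Real.sqrt_le_left (by norm_num)]; norm_num
    have s2 : Real.sqrt (2 * (y11 + y21)) ≤ 3 / 2 * (Real.sqrt y11 + Real.sqrt y21) := by
      rw [Real.sqrt_mul (by norm_num)]
      exact mul_le_mul hq2 (HC_sqrt_add _ _ hy11 hy21) (Real.sqrt_nonneg _) (by norm_num)
    have s3 : Real.sqrt (2 * (y12 + y22) + C * Real.exp (-(L / 200))) ≤
        3 / 2 * (Real.sqrt y12 + Real.sqrt y22) + Real.sqrt (C * Real.exp (-(L / 200))) := by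
      refine (HC_sqrt_add _ _ (by positivity) (by positivity)).trans ?_
      refine add_le_add_left ?_ _
      rw [Real.sqrt_mul (by norm_num)]
      exact mul_le_mul hq2 (HC_sqrt_add _ _ hy12 hy22) (Real.sqrt_nonneg _) (by norm_num)
    have s6 : Real.sqrt (C * Real.exp (-(L / 200))) ≤ ε / 4 := by
      rw [Real.sqrt_mul hC.le]
      have k1 : Real.sqrt (Real.exp (-(L / 200))) = Real.exp (-(L / 400)) := by
        rw [Real.sqrt_eq_iff_mul_self_eq (Real.exp_pos _).le (Real.exp_pos _).le, ← Real.exp_add]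
        congr 1
        ring
      rw [k1]
      have k2 : Real.exp (-(L / 400)) ≤ 1 / (L / 400) := HC_exp_neg_le (by positivity)
      have k3 : 400 * (4 * Real.sqrt C) ≤ L * ε := by
        rwa [← mul_div_assoc, div_le_iff₀ hε] at hLb
      calc Real.sqrt C * Real.exp (-(L / 400)) ≤ Real.sqrt C * (1 / (L / 400)) :=
            mul_le_mul_of_nonneg_left k2 hsC
        _ = (400 * (4 * Real.sqrt C)) * (1 / (4 * L)) := by field_simp
        _ ≤ (L * ε) * (1 / (4 * L)) := mul_le_mul_of_nonneg_right k3 (by positivity)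
        _ = ε / 4 := by field_simp
    have hsW : 1 ≤ Real.sqrt W := Real.one_le_sqrt.2 hW1
    have s8 : ε / 4 ≤ ε / 4 * L * Real.sqrt W := by
      have : 1 ≤ L * Real.sqrt W := by nlinarith
      calc ε / 4 = ε / 4 * 1 := (mul_one _).symm
        _ ≤ ε / 4 * (L * Real.sqrt W) := mul_le_mul_of_nonneg_left this (by positivity)
        _ = _ := by ring
    have e5 : ε * L * Real.sqrt W = 3 / 2 * (ε / 4 * L * Real.sqrt W) + 3 / 2 * (ε / 4 * L * Real.sqrt W) +
        ε / 4 * L * Real.sqrt W := by ring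
    rw [e5]
    linarith

end Pool.Agent.T2H63.CZ
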