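import Pool.Agent.T2H63.CZ.Stm

set_option autoImplicit false
set_option maxHeartbeats 4000000

open Complex Filter Topology Set MeasureTheory
open H370 (zset mult NN Nd Ns GoodL)

namespace Pool.Agent.T2H63.CZ

open H385
open Pool.Agent.T2H25.ZR

theorem LV_ge (α : ℝ) : 1 ≤ vv α := by
  unfold vv
  have : 0 ≤ min 1 (max 0 (200 * (α - 49 / 100))) := le_min zero_le_one (le_max_left _ _)
  linarith

theorem LV_le (α : ℝ) : vv α ≤ 2 := by
  unfold vv
  have : min 1 (max 0 (200 * (α - 49 / 100))) ≤ 1 := min_le_left _ _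
  linarith

theorem LV_lip (x y : ℝ) : |vv x - vv y| ≤ 200 * |x - y| := by
  unfold vv
  have h1 : |min 1 (max 0 (200 * (x - 49 / 100))) - min 1 (max 0 (200 * (y - 49 / 100)))| ≤
      |max 0 (200 * (x - 49 / 100)) - max 0 (200 * (y - 49 / 100))| := by
    have := abs_min_sub_min_le_max (1 : ℝ) (max 0 (200 * (x - 49 / 100))) 1
      (max 0 (200 * (y - 49 / 100)))
    simpa using this
  have h2 : |max 0 (200 * (x - 49 / 100)) - max 0 (200 * (y - 49 / 100))| ≤
      |200 * (x - 49 / 100) - 200 * (y - 49 / 100)| := by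
    have := abs_max_sub_max_le_max (0 : ℝ) (200 * (x - 49 / 100)) 0 (200 * (y - 49 / 100))
    simpa using this
  have h3 : |200 * (x - 49 / 100) - 200 * (y - 49 / 100)| = 200 * |x - y| := by
    rw [show 200 * (x - 49 / 100) - 200 * (y - 49 / 100) = 200 * (x - y) by ring, abs_mul]
    norm_num
  have e : 1 + min 1 (max 0 (200 * (x - 49 / 100))) - (1 + min 1 (max 0 (200 * (y - 49 / 100)))) =
      min 1 (max 0 (200 * (x - 49 / 100))) - min 1 (max 0 (200 * (y - 49 / 100))) := by ring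
  rw [e]
  linarith

theorem T_LV : S_LV := by
  intro γ h0 hπ
  have hN := NTR_Rw γ h0 hπ
  have hle : ∀ α, Rw γ α ≤ Rw γ 0 := mert_Rw_le γ h0 hπ
  obtain ⟨K, hK, hlip⟩ := hN.lip
  have hR0 : 0 ≤ Rw γ 0 := hN.nonneg 0
  refine ⟨fun α => ?_, fun α => ?_, ⟨2 * K + 200 * Rw γ 0, by positivity, fun x y => ?_⟩, fun α hα => ?_⟩
  · exact mul_nonneg (by linarith [LV_ge α]) (hN.nonneg α)
  · exact mul_le_mul (LV_le α) (hle α) (hN.nonneg α) (by norm_num)
  · have e : vv x * Rw γ x - vv y * Rw γ y = vv x * (Rw γ x - Rw γ y) + (vv x - vv y) * Rw γ y := by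
      ring
    show |vv x * Rw γ x - vv y * Rw γ y| ≤ _
    rw [e]
    refine (abs_add_le _ _).trans ?_
    rw [abs_mul, abs_mul, abs_of_nonneg (show 0 ≤ vv x by linarith [LV_ge x]),
      abs_of_nonneg (hN.nonneg y)]
    have h1 : vv x * |Rw γ x - Rw γ y| ≤ 2 * (K * |x - y|) :=
      mul_le_mul (LV_le x) (hlip x y) (abs_nonneg _) (by norm_num)
    have h2 : |vv x - vv y| * Rw γ y ≤ (200 * |x - y|) * Rw γ 0 :=
      mul_le_mul (LV_lip x y) (hle y) (hN.nonneg y) (by positivity)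
    linarith
  · show vv α * Rw γ α = 0
    rw [hN.zero α hα, mul_zero]

end Pool.Agent.T2H63.CZ
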