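import Pool.Agent.T2H63.CZ.Stm
import Pool.Agent.R321.RC2

/-!
# Package MS: the mean square of the sum of the two prime sums
-/

set_option autoImplicit false
set_option maxHeartbeats 4000000

open Complex Filter Topology Set MeasureTheory

namespace Pool.Agent.T2H63.CZ

open H385

lemma MS_prim_inv {q : ℕ} {χ : DirichletCharacter ℂ q} (h : χ.IsPrimitive) : χ⁻¹.IsPrimitive := by
  unfold DirichletCharacter.IsPrimitive at h ⊢
  rw [DirichletCharacter.conductor_inv]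
  exact h

/-- the coefficients -/
noncomputable def MS_cf (c : ℕ → ℂ) (q : ℕ) (χ : DirichletCharacter ℂ q) (n : ℕ) : ℂ :=
  χ (n : ZMod q) * c n * (ArithmeticFunction.vonMangoldt n : ℂ)

lemma MS_cf_norm {c : ℕ → ℂ} (hc : ∀ n, ‖c n‖ ≤ 1) (q : ℕ) (χ : DirichletCharacter ℂ q) (n : ℕ) :
    ‖MS_cf c q χ n‖ ≤ ArithmeticFunction.vonMangoldt n := by
  unfold MS_cf
  rw [norm_mul, norm_mul, Complex.norm_real, Real.norm_of_nonneg ArithmeticFunction.vonMangoldt_nonneg]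
  refine mul_le_of_le_one_left ArithmeticFunction.vonMangoldt_nonneg ?_
  calc _ ≤ 1 * (1 : ℝ) := mul_le_mul (DirichletCharacter.norm_le_one _ _) (hc n) (norm_nonneg _) zero_le_one
    _ = 1 := one_mul 1

lemma MS_PA (c : ℕ → ℂ) (q : ℕ) (χ : DirichletCharacter ℂ q) (T u t : ℝ) :
    PA c q χ T u t = Pf (MS_cf c q χ) T u t := rfl

lemma MS_PC {c₁ c₂ : ℕ → ℂ} (hc₁ : ∀ n, ‖c₁ n‖ ≤ 1) (hc₂ : ∀ n, ‖c₂ n‖ ≤ 1) (q : ℕ)
    (χ : DirichletCharacter ℂ q) (T u t : ℝ) (hT : 0 ≤ T) :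
    PC c₁ c₂ q χ T u t = PA c₁ q χ T u t + PA c₂ q χ⁻¹ T u t := by
  rw [MS_PA, MS_PA, ← Pool.Agent.R321.RC.Pf_add (MS_cf_norm hc₁ q χ) (MS_cf_norm hc₂ q χ⁻¹) T u t hT]
  rfl

lemma MS_sq (a b : ℂ) : ‖a + b‖ ^ 2 = ‖a‖ ^ 2 + ‖b‖ ^ 2 + 2 * (a * (starRingEnd ℂ) b).re := by
  rw [← Complex.normSq_eq_norm_sq, ← Complex.normSq_eq_norm_sq, ← Complex.normSq_eq_norm_sq,
    Complex.normSq_add]

/-- the family is invariant under the inversion of the characters -/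
lemma MS_inv (M X Y : ℕ) (f : IX → ℝ) :
    ∑ p ∈ primSetM M X Y, (1 / (p.1 : ℝ) ^ 2) * f ⟨p.1, p.2⁻¹⟩ =
      ∑ p ∈ primSetM M X Y, (1 / (p.1 : ℝ) ^ 2) * f p := by
  refine Finset.sum_nbij' (fun p => ⟨p.1, p.2⁻¹⟩) (fun p => ⟨p.1, p.2⁻¹⟩) ?_ ?_ ?_ ?_ ?_
  · intro p hp
    rw [mem_primSetM] at hp ⊢
    exact ⟨hp.1, hp.2.1, hp.2.2.1, MS_prim_inv hp.2.2.2⟩
  · intro p hp
    rw [mem_primSetM] at hp ⊢
    exact ⟨hp.1, hp.2.1, hp.2.2.1, MS_prim_inv hp.2.2.2⟩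
  · rintro ⟨q, χ⟩ _
    simp
  · rintro ⟨q, χ⟩ _
    simp
  · intro p _
    rfl

theorem T_MS (h : S_XT) : S_MS := by
  intro ε hε hε1
  obtain ⟨C, hC, hX⟩ := h ε hε hε1
  refine ⟨2 * C, by positivity, ?_⟩
  intro c₁ c₂ hc₁ hc₂ M X Y hX0 T u Z₁ Z₂ hT hu hZ₁ hZ₂
  have hT0 : 0 ≤ T := by linarith
  have key := hX c₁ c₂ hc₁ hc₂ M X Y hX0 T u hT hu
  set s := primSetM M X Y with hs
  set w : IX → ℝ := fun p => 1 / (p.1 : ℝ) ^ 2 with hw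
  have hw0 : ∀ p, 0 ≤ w p := fun p => by rw [hw]; positivity
  set A : IX → ℝ → ℂ := fun p t => PA c₁ p.1 p.2 T u t with hA
  set B : IX → ℝ → ℂ := fun p t => PA c₂ p.1 p.2⁻¹ T u t with hB
  set B' : IX → ℝ → ℂ := fun p t => PA c₂ p.1 p.2 T u t with hB'
  have cA : ∀ p, Continuous (A p) := fun p => fa_Pf_cont (MS_cf_norm hc₁ p.1 p.2) T u hT0
  have cB : ∀ p, Continuous (B p) := fun p => fa_Pf_cont (MS_cf_norm hc₂ p.1 p.2⁻¹) T u hT0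
  have iA : ∀ p, Integrable (fun t => ‖A p t‖ ^ 2) := fun p => fa_Pf_int (MS_cf_norm hc₁ p.1 p.2) T u hT0
  have iB : ∀ p, Integrable (fun t => ‖B p t‖ ^ 2) := fun p => fa_Pf_int (MS_cf_norm hc₂ p.1 p.2⁻¹) T u hT0
  have jA : Integrable (fun t => ∑ p ∈ s, w p * ‖A p t‖ ^ 2) :=
    integrable_finset_sum _ fun p _ => (iA p).const_mul _
  have jB : Integrable (fun t => ∑ p ∈ s, w p * ‖B p t‖ ^ 2) :=
    integrable_finset_sum _ fun p _ => (iB p).const_mul _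
  have zA : ∫ t, ∑ p ∈ s, w p * ‖A p t‖ ^ 2 ≤ Z₁ := by
    refine le_trans (le_of_eq ?_) hZ₁
    congr 1
    funext t
    rw [primFamM_eq]
  have zB : ∫ t, ∑ p ∈ s, w p * ‖B p t‖ ^ 2 ≤ Z₂ := by
    refine le_trans (le_of_eq ?_) hZ₂
    congr 1
    funext t
    rw [primFamM_eq]
    exact MS_inv M X Y (fun p => ‖PA c₂ p.1 p.2 T u t‖ ^ 2)
  have hC : ∀ t, primFamM M X Y (fun q χ => ‖PC c₁ c₂ q χ T u t‖ ^ 2) =
      ∑ p ∈ s, w p * ‖A p t + B p t‖ ^ 2 := fun t => by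
    rw [primFamM_eq]
    refine Finset.sum_congr rfl fun p _ => ?_
    rw [MS_PC hc₁ hc₂ p.1 p.2 T u t hT0]
  have hcr : Continuous (fun t => ∑ p ∈ s, (w p : ℂ) * (A p t * (starRingEnd ℂ) (B p t))) :=
    continuous_finset_sum _ fun p _ => continuous_const.mul ((cA p).mul (Complex.continuous_conj.comp (cB p)))
  have icr : Integrable (fun t => ‖∑ p ∈ s, (w p : ℂ) * (A p t * (starRingEnd ℂ) (B p t))‖) := by
    refine Integrable.mono' (jA.add jB) hcr.norm.aestronglyMeasurable (Eventually.of_forall fun t => ?_)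
    rw [norm_norm]
    refine (norm_sum_le _ _).trans ?_
    simp only [Pi.add_apply]
    rw [← Finset.sum_add_distrib]
    refine Finset.sum_le_sum fun p _ => ?_
    rw [norm_mul, norm_mul, RCLike.norm_conj, Complex.norm_real, Real.norm_of_nonneg (hw0 p), ← mul_add]
    refine mul_le_mul_of_nonneg_left ?_ (hw0 p)
    nlinarith [sq_nonneg (‖A p t‖ - ‖B p t‖), norm_nonneg (A p t), norm_nonneg (B p t),
      mul_nonneg (norm_nonneg (A p t)) (norm_nonneg (B p t))]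
  have cC : Continuous (fun t => ∑ p ∈ s, w p * ‖A p t + B p t‖ ^ 2) :=
    continuous_finset_sum _ fun p _ => continuous_const.mul (((cA p).add (cB p)).norm.pow 2)
  have b2 : ∀ t, ∑ p ∈ s, w p * ‖A p t + B p t‖ ^ 2 ≤
      2 * ((∑ p ∈ s, w p * ‖A p t‖ ^ 2) + ∑ p ∈ s, w p * ‖B p t‖ ^ 2) := fun t => by
    rw [← Finset.sum_add_distrib, Finset.mul_sum]
    refine Finset.sum_le_sum fun p _ => ?_
    have h1 : ‖A p t + B p t‖ ^ 2 ≤ 2 * (‖A p t‖ ^ 2 + ‖B p t‖ ^ 2) := by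
      have h2 := pow_le_pow_left₀ (norm_nonneg _) (norm_add_le (A p t) (B p t)) 2
      nlinarith [sq_nonneg (‖A p t‖ - ‖B p t‖)]
    have h3 := mul_le_mul_of_nonneg_left h1 (hw0 p)
    linarith
  have b1 : ∀ t, ∑ p ∈ s, w p * ‖A p t + B p t‖ ^ 2 ≤
      ((∑ p ∈ s, w p * ‖A p t‖ ^ 2) + ∑ p ∈ s, w p * ‖B p t‖ ^ 2) +
        2 * ‖∑ p ∈ s, (w p : ℂ) * (A p t * (starRingEnd ℂ) (B p t))‖ := fun t => by
    have e1 : ∑ p ∈ s, w p * ‖A p t + B p t‖ ^ 2 =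
      ((∑ p ∈ s, w p * ‖A p t‖ ^ 2) + ∑ p ∈ s, w p * ‖B p t‖ ^ 2) +
        2 * (∑ p ∈ s, (w p : ℂ) * (A p t * (starRingEnd ℂ) (B p t))).re := by
      rw [Complex.re_sum, ← Finset.sum_add_distrib, Finset.mul_sum, ← Finset.sum_add_distrib]
      refine Finset.sum_congr rfl fun p _ => ?_
      rw [MS_sq, Complex.re_ofReal_mul]
      ring
    rw [e1]
    have := Complex.re_le_norm (∑ p ∈ s, (w p : ℂ) * (A p t * (starRingEnd ℂ) (B p t)))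
    linarith
  simp only [hC]
  have nn : ∀ t, 0 ≤ ∑ p ∈ s, w p * ‖A p t + B p t‖ ^ 2 := fun t =>
    Finset.sum_nonneg fun p _ => mul_nonneg (hw0 p) (sq_nonneg _)
  constructor
  · have i1 : Integrable (fun t => ((∑ p ∈ s, w p * ‖A p t‖ ^ 2) + ∑ p ∈ s, w p * ‖B p t‖ ^ 2) +
        2 * ‖∑ p ∈ s, (w p : ℂ) * (A p t * (starRingEnd ℂ) (B p t))‖) := (jA.add jB).add (icr.const_mul 2)
    calc ∫ t, ∑ p ∈ s, w p * ‖A p t + B p t‖ ^ 2 ≤
        ∫ t, (((∑ p ∈ s, w p * ‖A p t‖ ^ 2) + ∑ p ∈ s, w p * ‖B p t‖ ^ 2) +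
        2 * ‖∑ p ∈ s, (w p : ℂ) * (A p t * (starRingEnd ℂ) (B p t))‖) :=
          integral_mono_of_nonneg (Eventually.of_forall nn) i1 (Eventually.of_forall b1)
      _ = ((∫ t, ∑ p ∈ s, w p * ‖A p t‖ ^ 2) + ∫ t, ∑ p ∈ s, w p * ‖B p t‖ ^ 2) +
          2 * ∫ t, ‖∑ p ∈ s, (w p : ℂ) * (A p t * (starRingEnd ℂ) (B p t))‖ := by
          have e1 := integral_add (jA.add jB) (icr.const_mul 2)
          have e2 := integral_add jA jB
          have e3 := integral_const_mul (μ := (volume : Measure ℝ)) (2 : ℝ)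
            (fun t => ‖∑ p ∈ s, (w p : ℂ) * (A p t * (starRingEnd ℂ) (B p t))‖)
          simp only [Pi.add_apply] at e1 e2
          rw [e3, e2] at e1
          exact e1
      _ ≤ (Z₁ + Z₂) + 2 * (C * (T * Real.exp ((1 + 2 * ε) * u) / X)) :=
          add_le_add (add_le_add zA zB) (mul_le_mul_of_nonneg_left key (by norm_num))
      _ = _ := by ring
  · have i2 : Integrable (fun t => 2 * ((∑ p ∈ s, w p * ‖A p t‖ ^ 2) + ∑ p ∈ s, w p * ‖B p t‖ ^ 2)) :=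
      (jA.add jB).const_mul 2
    calc ∫ t, ∑ p ∈ s, w p * ‖A p t + B p t‖ ^ 2 ≤
        ∫ t, 2 * ((∑ p ∈ s, w p * ‖A p t‖ ^ 2) + ∑ p ∈ s, w p * ‖B p t‖ ^ 2) :=
          integral_mono_of_nonneg (Eventually.of_forall nn) i2 (Eventually.of_forall b2)
      _ = 2 * ((∫ t, ∑ p ∈ s, w p * ‖A p t‖ ^ 2) + ∫ t, ∑ p ∈ s, w p * ‖B p t‖ ^ 2) := by
          rw [integral_const_mul]
          congr 1
          exact integral_add jA jB
      _ ≤ 2 * (Z₁ + Z₂) := by linarith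

end Pool.Agent.T2H63.CZ
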