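import Pool.Agent.T2H63.CZ.Stm

/-!
# Package NU: numerics of the window with parameter `3`
-/

open Complex Filter Topology Set MeasureTheory

set_option autoImplicit false

namespace Pool.Agent.T2H63.CZ

open H385 H385.WinC

theorem NU_main : Rw 3 0 + 4 * (∫ α in (0 : ℝ)..1, α * Rw 3 α) +
    4 * (∫ α in (49 / 100 : ℝ)..1, α * Rw 3 α) < 1.87 := by
  obtain ⟨hcos, hsin⟩ := Pool.Agent.R321.RC.trig_34
  have hπ1 := Real.pi_gt_d2
  have hπ2 := Real.pi_lt_d2
  set γ : ℝ := 3 with hγ
  have hγ0 : γ ≠ 0 := by rw [hγ]; norm_num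
  set K := (γ / (2 * Real.sin (γ / 2))) ^ 2 / 2 with hK
  have hRw : ∀ x : ℝ, 0 ≤ x → x ≤ 1 → Rw γ x = nm γ x * K := by
    intro x hx hx1
    unfold Rw nm
    rw [abs_of_nonneg hx, if_pos hx1]
    ring
  have hc : Continuous (fun α : ℝ => α * (nm γ α * K)) := by
    have := nm_cont γ
    fun_prop
  have hcong : ∀ a b : ℝ, 0 ≤ a → a ≤ b → b ≤ 1 → ∫ α in a..b, α * Rw γ α =
      ∫ α in a..b, α * (nm γ α * K) := by
    intro a b ha hab hb
    apply intervalIntegral.integral_congr
    intro x hx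
    rw [Set.uIcc_of_le hab] at hx
    simp only
    rw [hRw x (ha.trans hx.1) (hx.2.trans hb)]
  have hprim : ∀ a b : ℝ, ∫ α in a..b, α * (nm γ α * K) = K * (N2 γ b - N2 γ a) := by
    intro a b
    have : ∫ α in a..b, α * (nm γ α * K) = ∫ α in a..b, K * (α * nm γ α) := by
      congr 1
      ext x
      ring
    rw [this, intervalIntegral.integral_const_mul,
      intervalIntegral.integral_eq_sub_of_hasDerivAt (fun x _ => N2_deriv γ hγ0 x)]
    apply Continuous.intervalIntegrable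
    have := nm_cont γ
    fun_prop
  -- trigonometry at `3 / 2`
  have hS0 : Real.sin (3 / 2) = 2 * Real.sin (3 / 4) * Real.cos (3 / 4) := by
    rw [← Real.sin_two_mul]; congr 1; norm_num
  have hC0 : Real.cos (3 / 2) = 1 - 2 * Real.sin (3 / 4) ^ 2 := by
    have : Real.cos (3 / 2) = Real.cos (2 * (3 / 4)) := by congr 1; norm_num
    rw [this, Real.cos_two_mul, Real.cos_sq']
    ring
  rw [abs_le] at hcos hsin
  have hs1 : 0.99749 ≤ Real.sin (3 / 2) := by
    rw [hS0]
    nlinarith [hcos.1, hcos.2, hsin.1, hsin.2]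
  have hs2 : Real.sin (3 / 2) ≤ 0.9975 := by
    rw [hS0]
    nlinarith [hcos.1, hcos.2, hsin.1, hsin.2]
  have hc1 : 0.07073 ≤ Real.cos (3 / 2) := by
    rw [hC0]
    nlinarith [hsin.1, hsin.2]
  have hc2 : Real.cos (3 / 2) ≤ 0.07075 := by
    rw [hC0]
    nlinarith [hsin.1, hsin.2]
  set s := Real.sin (3 / 2) with hs
  set c := Real.cos (3 / 2) with hcc
  have hspos : 0 < s := by linarith
  have hh : γ / 2 = 3 / 2 := by rw [hγ]
  have hS : Real.sin γ = 2 * s * c := by
    rw [hs, hcc, ← Real.sin_two_mul]; congr 1; rw [hγ]; norm_num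
  have hC : Real.cos γ = 1 - 2 * s ^ 2 := by
    have : Real.cos γ = Real.cos (2 * (3 / 2)) := by congr 1; rw [hγ]; norm_num
    rw [this, Real.cos_two_mul, Real.cos_sq', hs]
    ring
  have hKs : K = 9 / (8 * s ^ 2) := by
    rw [hK, hγ]
    field_simp
    norm_num
  have hK0 : 0 < K := by rw [hKs]; positivity
  have hK1 : K ≤ 1.1309 := by
    rw [hKs, div_le_iff₀ (by positivity)]
    nlinarith
  -- the piece from `0.49` to `0.5`
  have hpiece : ∫ α in (49 / 100 : ℝ)..(1 / 2), α * Rw γ α ≤ 0.00225 := by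
    have hnm : nm γ (49 / 100) ≤ 0.39 := by
      unfold nm
      have e1 : Real.cos (γ * (49 / 100)) ≤ 0.105 := by
        have h1 : Real.cos (γ * (49 / 100)) = Real.sin (Real.pi / 2 - γ * (49 / 100)) := by
          rw [Real.sin_pi_div_two_sub]
        rw [h1]
        refine (Real.sin_le ?_).trans ?_
        · rw [hγ]; linarith
        · rw [hγ]; linarith
      have e2 : Real.sin (γ * (1 - 49 / 100)) ≤ 1 := Real.sin_le_one _
      have e3 : Real.sin (γ * (1 - 49 / 100)) / γ ≤ 1 / 3 := by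
        rw [hγ] at e2 ⊢
        linarith
      nlinarith
    have hR : Rw γ (49 / 100) ≤ 0.45 := by
      rw [hRw _ (by norm_num) (by norm_num)]
      nlinarith
    have hanti := Rw_antitone γ (by rw [hγ]; norm_num) (by rw [hγ]; linarith)
    have hle : ∫ α in (49 / 100 : ℝ)..(1 / 2), α * Rw γ α ≤
        ∫ α in (49 / 100 : ℝ)..(1 / 2), (0.225 : ℝ) := by
      rw [hcong _ _ (by norm_num) (by norm_num) (by norm_num)]
      apply intervalIntegral.integral_mono_on (by norm_num) (hc.intervalIntegrable _ _)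
        (by simp)
      intro x hx
      have h1 : Rw γ x ≤ Rw γ (49 / 100) :=
        hanti (by norm_num : (49 / 100 : ℝ) ∈ Set.Ici 0)
          (Set.mem_Ici.2 (by linarith [hx.1])) hx.1
      have h2 := Rw_nonneg γ (by rw [hγ]; norm_num) (by rw [hγ]; linarith) x
      rw [← hRw x (by linarith [hx.1]) (by linarith [hx.2])]
      have h3 : x ≤ 1 / 2 := hx.2
      have h4 : 0 ≤ x := by linarith [hx.1]
      nlinarith
    refine hle.trans ?_
    rw [intervalIntegral.integral_const]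
    norm_num
  have hsplit : ∫ α in (49 / 100 : ℝ)..1, α * Rw γ α =
      (∫ α in (49 / 100 : ℝ)..(1 / 2), α * Rw γ α) + ∫ α in (1 / 2 : ℝ)..1, α * Rw γ α := by
    rw [hcong _ _ (by norm_num) (by norm_num) (by norm_num),
      hcong _ _ (by norm_num) (by norm_num) (by norm_num),
      hcong _ _ (by norm_num) (by norm_num) (by norm_num)]
    exact (intervalIntegral.integral_add_adjacent_intervals (hc.intervalIntegrable _ _)
      (hc.intervalIntegrable _ _)).symm
  have hT : Rw γ 0 + 4 * (∫ α in (0 : ℝ)..1, α * Rw γ α) +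
      4 * (∫ α in (1 / 2 : ℝ)..1, α * Rw γ α) =
      (5 + 16 * s ^ 2 + 14 * s * c - 7 * s - 2 * c) / (8 * s ^ 2) := by
    rw [hcong _ _ le_rfl (by norm_num) le_rfl, hcong _ _ (by norm_num) (by norm_num) le_rfl,
      hprim, hprim, hRw 0 le_rfl zero_le_one, hKs]
    unfold N2 nm
    have a1 : γ * (1 / 2) = 3 / 2 := by rw [hγ]; norm_num
    have a2 : γ * (1 - 1 / 2) = 3 / 2 := by rw [hγ]; norm_num
    have a3 : γ * (1 - 0) = γ := by ring
    have a4 : γ * (1 - 1) = 0 := by ring
    have a5 : γ * 0 = 0 := by ring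
    have a6 : γ * 1 = γ := by ring
    rw [a1, a2, a3, a4, a5, a6, Real.sin_zero, Real.cos_zero, hS, hC, ← hs, ← hcc, hγ]
    field_simp
    ring
  have hT2 : (5 + 16 * s ^ 2 + 14 * s * c - 7 * s - 2 * c) / (8 * s ^ 2) ≤ 1.859 := by
    rw [div_le_iff₀ (by positivity)]
    nlinarith [mul_nonneg (sub_nonneg.2 hs1) (sub_nonneg.2 hc1),
      mul_nonneg (sub_nonneg.2 hs2) (sub_nonneg.2 hc2)]
  rw [hsplit]
  linarith

theorem T_NU : S_NU := NU_main

end Pool.Agent.T2H63.CZ
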