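import Pool.Agent.T2H63.CZ.Stm

/-!
# Project CZ, package RE: the final relation
-/

open Complex Filter Topology Set MeasureTheory
open H370 (zset mult NN Nd Ns GoodL)

set_option autoImplicit false
set_option maxHeartbeats 4000000

namespace Pool.Agent.T2H63.CZ

open H385
open Pool.Agent.T2H25.ZR
open Pool.Agent.R321.RC (On Cm counts)
open Pool.Agent.R321.RG (fam_mono fam_congr fam_add fam_mul LL)

theorem RE_selb_max {c : ℕ → ℂ} {C C' : ℝ} (h : Selb c C) (hC : C ≤ C') : Selb c C' := by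
  intro x hx
  have h0 : 0 ≤ Real.log x := Real.log_nonneg hx
  exact (h x hx).trans (mul_le_mul_of_nonneg_right hC (by linarith))

theorem RE_ni_zero (n : ℕ) : ni 0 n = 1 := by
  unfold ni
  simp

section two

variable {f₁ f₂ : ℕ} (ψ₁ : DirichletCharacter ℂ f₁) (ψ₂ : DirichletCharacter ℂ f₂) (α : ℝ)

/-- every member of the family has a zero in the range -/
theorem RE_NN_big {c₁ c₂ : ℕ → ℂ} (M : ℕ) {A : ℝ} (hA : 1 ≤ A) (hF : TwC A M c₁ c₂ (FG ψ₁ ψ₂ α)) :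
    ∃ X1 : ℝ, 1 ≤ X1 ∧ ∀ (X q : ℕ) (χ : DirichletCharacter ℂ q) (T : ℝ), X1 ≤ X →
    X < q → (q : ℝ) ≤ (X : ℝ) ^ 2 → Nat.Coprime q M → χ.IsPrimitive →
    (Real.log X) ^ 2 ≤ T → T ≤ X → (1 : ℝ) ≤ (NN (FG ψ₁ ψ₂ α q χ) T (2 * T) : ℝ) := by
  obtain ⟨C, hC, hN⟩ := N_lower_D 2 A (by norm_num) hA
  refine ⟨Real.exp (12 + 20 * C + 4), Real.one_le_exp (by positivity), ?_⟩
  intro X q χ T hX hq hq2 hqc hχ hT1 hT2
  have hXpos : (0 : ℝ) < X := lt_of_lt_of_le (Real.exp_pos _) hX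
  set L : ℝ := Real.log X with hL
  have hLL : 12 + 20 * C + 4 ≤ L := by
    rw [hL, Real.le_log_iff_exp_le hXpos]; exact hX
  have hXe : (X : ℝ) = Real.exp L := by rw [hL, Real.exp_log hXpos]
  have hX1 : 1 ≤ X := by exact_mod_cast hXpos
  obtain ⟨p1, p2, _, _, _, p6⟩ := param_ok 1 L T 1 one_pos le_rfl (by linarith)
    (by rw [div_one]; linarith) hT1 (by rw [one_mul, ← hXe]; exact hT2)
  have hq0 : (0 : ℝ) < q := by exact_mod_cast (show 0 < q by omega)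
  have hq1 : (1 : ℝ) ≤ q := by exact_mod_cast (show 1 ≤ q by omega)
  have hqX : (X : ℝ) ≤ q := by exact_mod_cast hq.le
  have hL0 : 0 ≤ L := by linarith
  have hT0 : 1 ≤ T := by linarith
  have hTpos : 0 < T := by linarith
  have hl := hN q (FG ψ₁ ψ₂ α q χ) _ hq1 (hF q χ (by omega) hqc hχ) T L p1 p2
  have hlog1 : L ≤ Real.log (q * T) := by
    rw [hL]
    refine Real.log_le_log hXpos ?_
    calc (X : ℝ) = X * 1 := (mul_one _).symm
      _ ≤ q * T := mul_le_mul hqX hT0 zero_le_one hq0.le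
  have hlog2 : Real.log (q * T) ≤ 3 * L := by
    have e1 : (q : ℝ) * T ≤ (X : ℝ) ^ 3 := by
      calc (q : ℝ) * T ≤ (X : ℝ) ^ 2 * X := mul_le_mul hq2 hT2 hTpos.le (by positivity)
        _ = (X : ℝ) ^ 3 := by ring
    calc Real.log (q * T) ≤ Real.log ((X : ℝ) ^ 3) := Real.log_le_log (by positivity) e1
      _ = 3 * L := by rw [Real.log_pow, hL]; norm_num
  have a2 : L * Real.log (q * T) ≤ 3 * T := by
    have : L * Real.log (q * T) ≤ L * (3 * L) := mul_le_mul_of_nonneg_left hlog2 (by linarith)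
    linarith [show L * (3 * L) = 3 * L ^ 2 by ring]
  have a3 : T * Real.log (q * T) ^ 2 * Real.exp (-L ^ 2 / 2) ≤ T := by
    have b1 : Real.log (q * T) ^ 2 ≤ (3 * L) ^ 2 := pow_le_pow_left₀ (by linarith) hlog2 2
    have b2 : Real.log (q * T) ^ 2 * Real.exp (-L ^ 2 / 2) ≤ 1 := by
      refine le_trans (mul_le_mul_of_nonneg_right b1 (Real.exp_pos _).le) ?_
      rw [show (3 * L) ^ 2 = 9 * L ^ 2 by ring]; exact p6
    calc _ = T * (Real.log (q * T) ^ 2 * Real.exp (-L ^ 2 / 2)) := by ring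
      _ ≤ T * 1 := mul_le_mul_of_nonneg_left b2 hTpos.le
      _ = T := mul_one T
  have a4 : C * (T + L * Real.log (q * T) + T * Real.log (q * T) ^ 2 * Real.exp (-L ^ 2 / 2)) ≤
      C * (5 * T) := mul_le_mul_of_nonneg_left (by linarith) hC.le
  have a1 : T * (L / 4) ≤ T / (2 * Real.pi) * (2 * Real.log (q * T)) := by
    have hpi := Real.pi_pos
    have hpi4 := Real.pi_lt_four
    have e1 : T / (2 * Real.pi) * (2 * Real.log (q * T)) = T * (Real.log (q * T) / Real.pi) := by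
      field_simp
    rw [e1]
    refine mul_le_mul_of_nonneg_left ?_ hTpos.le
    calc L / 4 ≤ L / Real.pi := div_le_div_of_nonneg_left hL0 hpi hpi4.le
      _ ≤ Real.log (q * T) / Real.pi := div_le_div_of_nonneg_right hlog1 hpi.le
  have a5 : 1 ≤ T * (L / 4 - 5 * C) := by
    have : 1 ≤ L / 4 - 5 * C := by linarith
    exact one_le_mul_of_one_le_of_one_le hT0 this
  have a6 : T * (L / 4 - 5 * C) = T * (L / 4) - C * (5 * T) := by ring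
  linarith

end two

section two

variable {f₁ f₂ : ℕ} (ψ₁ : DirichletCharacter ℂ f₁) (ψ₂ : DirichletCharacter ℂ f₂) (α : ℝ)

theorem T_RE (hCN : S_CN) (hGD : S_GD) (hSL : S_SL) : S_RE := by
  intro f₁ f₂ _ _ ψ₁ ψ₂ h₁ h₂ α hα M hsq hM
  obtain ⟨⟨A', hA', hg⟩, hF0⟩ := hGD f₁ f₂ ψ₁ ψ₂ h₁ h₂ α hα
  obtain ⟨A, hA, hF⟩ := hF0 M hM
  obtain ⟨C1, hS1⟩ := hSL f₁ ψ₁ 0
  obtain ⟨C2, hS2⟩ := hSL f₂ ψ₂ α
  have e0 : (fun n : ℕ => ψ₁ (n : ZMod f₁) * ni 0 n) = fun n : ℕ => ψ₁ (n : ZMod f₁) := by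
    funext n
    rw [RE_ni_zero, mul_one]
  rw [e0] at hS1
  obtain ⟨K, η, X0, hK, hη, hX0, h⟩ := hCN A hA M hsq (fun n => ψ₁ (n : ZMod f₁))
    (fun n => ψ₂ (n : ZMod f₂) * ni α n) (fun n => DirichletCharacter.norm_le_one ψ₁ _)
    (fun n => by
      rw [norm_mul, ni_norm, mul_one]
      exact DirichletCharacter.norm_le_one ψ₂ _) (max C1 C2)
    (RE_selb_max hS1 (le_max_left _ _)) (RE_selb_max hS2 (le_max_right _ _)) (FG ψ₁ ψ₂ α) hF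
  obtain ⟨X1, hX1, hpos⟩ := RE_NN_big ψ₁ ψ₂ α M hA hF
  have hf1 : (1 : ℝ) ≤ f₁ := by exact_mod_cast (NeZero.one_le : 1 ≤ f₁)
  have hf2 : (1 : ℝ) ≤ f₂ := by exact_mod_cast (NeZero.one_le : 1 ≤ f₂)
  obtain ⟨C4, hC4, hmass⟩ := prim_mass_M M hsq
  have hc0 := cM_pos M hsq
  refine ⟨max K (Real.exp ((C4 + 1) / cM M)), min η 1, max X0 (max X1 (Real.exp 1)),
    le_max_of_le_left hK, lt_min hη one_pos, le_max_of_le_left hX0, ?_⟩
  intro X Y T hX hKX hY hT1 hT2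
  have hXX0 : X0 ≤ X := (le_max_left _ _).trans hX
  have hXX1 : X1 ≤ X := ((le_max_left _ _).trans (le_max_right _ _)).trans hX
  have hXe : Real.exp 1 ≤ X := ((le_max_right _ _).trans (le_max_right _ _)).trans hX
  have hX1r : (1 : ℝ) ≤ X := hX0.trans hXX0
  have hXpos : (0 : ℝ) < X := by linarith
  have hX1n : 1 ≤ X := by exact_mod_cast hX1r
  have hlog1 : 1 ≤ Real.log X := by
    rw [Real.le_log_iff_exp_le hXpos]; exact hXe
  have hT0 : 1 ≤ T := (one_le_pow₀ hlog1).trans hT1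
  have hKX1 : K * X ≤ Y := (mul_le_mul_of_nonneg_right (le_max_left _ _) hXpos.le).trans hKX
  have hKX2 : Real.exp ((C4 + 1) / cM M) * X ≤ Y :=
    (mul_le_mul_of_nonneg_right (le_max_right _ _) hXpos.le).trans hKX
  have hXYr : (X : ℝ) ≤ Y := by
    calc (X : ℝ) = 1 * X := (one_mul _).symm
      _ ≤ K * X := mul_le_mul_of_nonneg_right hK hXpos.le
      _ ≤ Y := hKX1
  have hXY : X ≤ Y := by exact_mod_cast hXYr
  have hY1 : (Y : ℝ) ≤ (X : ℝ) ^ (1 + η) :=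
    hY.trans (Real.rpow_le_rpow_of_exponent_le hX1r (by linarith [min_le_left η 1]))
  have hY2 : (Y : ℝ) ≤ (X : ℝ) ^ 2 := by
    refine (hY.trans (Real.rpow_le_rpow_of_exponent_le hX1r
      (show 1 + min η 1 ≤ ((2 : ℕ) : ℝ) by push_cast; linarith [min_le_right η 1]))).trans
      (le_of_eq ?_)
    rw [Real.rpow_natCast]
  have hTη : T ≤ (X : ℝ) ^ η :=
    hT2.trans (Real.rpow_le_rpow_of_exponent_le hX1r (min_le_left η 1))
  have hTX : T ≤ X := by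
    refine (hT2.trans (Real.rpow_le_rpow_of_exponent_le hX1r (min_le_right η 1))).trans
      (le_of_eq (Real.rpow_one _))
  obtain ⟨b1, b2⟩ := h X Y T hXX0 hKX1 hY1 hT1 hTη
  have hgl : ∀ q : ℕ, X < q → Nat.Coprime q M → ∀ χ : DirichletCharacter ℂ q, χ.IsPrimitive →
      GoodL (Lt ψ₁ q χ) ∧ GoodL (sh α (Lt ψ₂ q χ⁻¹)) := by
    intro q hq hc χ hχ
    obtain ⟨g1, g2⟩ := hg q χ (by omega) (hM q hc) hχ
    have hq1 : (1 : ℝ) ≤ q := by exact_mod_cast (show 1 ≤ q by omega)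
    have k1 : (1 : ℝ) ≤ (q : ℝ) * f₁ := one_le_mul_of_one_le_of_one_le hq1 hf1
    have k2 : (1 : ℝ) ≤ (1 + α) * ((q : ℝ) * f₂) :=
      one_le_mul_of_one_le_of_one_le (by linarith) (one_le_mul_of_one_le_of_one_le hq1 hf2)
    exact ⟨H385.PerChi.goodL hA' k1 g1, H385.PerChi.goodL hA' k2 g2⟩
  have hcnt : ∀ q : ℕ, X < q → q ≤ Y → Nat.Coprime q M → ∀ χ : DirichletCharacter ℂ q,
      χ.IsPrimitive → _ := fun q hq _ hc χ hχ =>
    counts (hgl q hq hc χ hχ).1 (hgl q hq hc χ hχ).2 hT0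
  have hNN : primFamM M X Y (fun q χ => (NN (FG ψ₁ ψ₂ α q χ) T (2 * T) : ℝ)) =
      primFamM M X Y (fun q χ => ((NN (Lt ψ₁ q χ) T (2 * T) +
        NN (sh α (Lt ψ₂ q χ⁻¹)) T (2 * T) : ℕ) : ℝ)) := by
    refine fam_congr M X Y _ _ fun q hq hq2 hc χ hχ => ?_
    have := (hcnt q hq hq2 hc χ hχ).1
    show ((NN (fun s => Lt ψ₁ q χ s * sh α (Lt ψ₂ q χ⁻¹) s) T (2 * T) : ℕ) : ℝ) = _
    rw [this]
  have hNs : primFamM M X Y (fun q χ => (Ns (FG ψ₁ ψ₂ α q χ) T (2 * T) : ℝ)) ≤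
      primFamM M X Y (fun q χ => ((On (Lt ψ₁ q χ) (sh α (Lt ψ₂ q χ⁻¹)) T +
          On (sh α (Lt ψ₂ q χ⁻¹)) (Lt ψ₁ q χ) T : ℕ) : ℝ)) := by
    refine fam_mono M X Y _ _ fun q hq hq2 hc χ hχ => ?_
    have := (hcnt q hq hq2 hc χ hχ).2.2.1
    show ((Ns (fun s => Lt ψ₁ q χ s * sh α (Lt ψ₂ q χ⁻¹) s) T (2 * T) : ℕ) : ℝ) ≤ _
    exact_mod_cast this
  have hNd : primFamM M X Y (fun q χ => (Nd (FG ψ₁ ψ₂ α q χ) T (2 * T) : ℝ)) =
      primFamM M X Y (fun q χ => ((zset (Lt ψ₁ q χ) T (2 * T) ∪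
          zset (sh α (Lt ψ₂ q χ⁻¹)) T (2 * T)).ncard : ℝ)) := by
    refine fam_congr M X Y _ _ fun q hq hq2 hc χ hχ => ?_
    have := (hcnt q hq hq2 hc χ hχ).2.1
    show ((Nd (fun s => Lt ψ₁ q χ s * sh α (Lt ψ₂ q χ⁻¹) s) T (2 * T) : ℕ) : ℝ) = _
    rw [this]
  have hCm : primFamM M X Y (fun q χ => (Cm (Lt ψ₁ q χ) (sh α (Lt ψ₂ q χ⁻¹)) T : ℝ)) +
      primFamM M X Y (fun q χ => (Nd (FG ψ₁ ψ₂ α q χ) T (2 * T) : ℝ)) ≤
      primFamM M X Y (fun q χ => ((NN (Lt ψ₁ q χ) T (2 * T) +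
        NN (sh α (Lt ψ₂ q χ⁻¹)) T (2 * T) : ℕ) : ℝ)) := by
    rw [← fam_add]
    refine fam_mono M X Y _ _ fun q hq hq2 hc χ hχ => ?_
    have := (hcnt q hq hq2 hc χ hχ).2.2.2
    show (Cm (Lt ψ₁ q χ) (sh α (Lt ψ₂ q χ⁻¹)) T : ℝ) +
      ((Nd (fun s => Lt ψ₁ q χ s * sh α (Lt ψ₂ q χ⁻¹) s) T (2 * T) : ℕ) : ℝ) ≤ _
    exact_mod_cast this
  have hW1 : 1 ≤ primFamM M X Y (fun _ _ => 1) := by
    have h1 := (abs_le.mp (hmass X Y hX1n hXY)).1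
    have h2 : (C4 + 1) / cM M ≤ Real.log ((Y : ℝ) / X) := by
      have hYpos : (0 : ℝ) < Y := lt_of_lt_of_le hXpos hXYr
      rw [Real.le_log_iff_exp_le (div_pos hYpos hXpos), le_div_iff₀ hXpos]
      exact hKX2
    rw [div_le_iff₀ hc0] at h2
    linarith
  have hNpos : 0 < primFamM M X Y (fun q χ => (NN (FG ψ₁ ψ₂ α q χ) T (2 * T) : ℝ)) := by
    refine lt_of_lt_of_le (lt_of_lt_of_le one_pos hW1) ?_
    refine fam_mono M X Y _ _ fun q hq hq2 hc χ hχ => ?_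
    have hqY : (q : ℝ) ≤ Y := by exact_mod_cast hq2
    exact hpos X q χ T hXX1 hq (hqY.trans hY2) hc hχ hT1 hTX
  rw [hNN] at b1 b2 hNpos
  rw [hNd] at b2 hCm
  refine ⟨hNpos, fun q hq hc χ hχ => ⟨H370.zset_finite (hgl q hq hc χ hχ).1 T _ hT0,
    H370.zset_finite (hgl q hq hc χ hχ).2 T _ hT0⟩, b1.trans hNs, b2, ?_⟩
  linarith

end two

end Pool.Agent.T2H63.CZ
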