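import Pool.Agent.T2H63.CZ.Stm

/-!
# Project CZ, package SL: the Selberg sum for `ψ(n) n^(-iα)`
-/

set_option autoImplicit false
set_option maxHeartbeats 4000000

open Complex Filter Topology Set MeasureTheory

namespace Pool.Agent.T2H63.CZ

open H385
open Pool.Agent.T2H25.ZR

theorem T_SL : S_SL := by
  intro m _ ψ α
  set f : ℕ → ℝ := fun n => ‖ψ (n : ZMod m) * ni α n‖ ^ 2 with hf
  have hfe : ∀ n, f n = if Nat.Coprime n m then 1 else 0 := by
    intro n
    simp only [hf]
    rw [norm_mul, ni_norm, mul_one, norm_sq_char]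
  have h0 : ∀ n, 0 ≤ f n := fun n => by positivity
  have h4 : ∀ n, f n ≤ 4 := by
    intro n
    rw [hfe]
    split_ifs <;> norm_num
  obtain ⟨D1, hD1, hn1⟩ := noncop m (NeZero.ne m)
  have hone : ∃ C : ℝ, 0 ≤ C ∧ ∀ N : ℕ, 1 ≤ N →
    |∑ n ∈ Finset.Icc 1 N, ArithmeticFunction.vonMangoldt n * f n / n - Real.log N| ≤ C := by
    refine ⟨6 + D1, by positivity, fun N hN => ?_⟩
    have hM1 := H370.nt_mertens_lower N hN
    have hM2 := H370.nt_mertens_upper N hN
    have e : ∑ n ∈ Finset.Icc 1 N, ArithmeticFunction.vonMangoldt n * f n / n =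
        ∑ n ∈ Finset.Icc 1 N, ArithmeticFunction.vonMangoldt n / n -
        ∑ n ∈ Finset.Icc 1 N, (if Nat.Coprime n m then 0 else
          ArithmeticFunction.vonMangoldt n / n) := by
      rw [← Finset.sum_sub_distrib]
      refine Finset.sum_congr rfl fun n _ => ?_
      rw [hfe]
      split_ifs <;> ring
    have a1 := hn1 N
    have b1 : 0 ≤ ∑ n ∈ Finset.Icc 1 N, (if Nat.Coprime n m then 0 else
          ArithmeticFunction.vonMangoldt n / n) := by
      refine Finset.sum_nonneg fun n _ => ?_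
      split_ifs
      · exact le_rfl
      · exact div_nonneg ArithmeticFunction.vonMangoldt_nonneg (Nat.cast_nonneg n)
    rw [e, abs_le]
    constructor <;> linarith
  obtain ⟨C, hC, hh⟩ := sel_real f (sel_nat f h0 h4 hone)
  refine ⟨C, fun x hx => ?_⟩
  have h1 := hh x hx
  refine le_trans (le_of_eq ?_) h1
  rfl

end Pool.Agent.T2H63.CZ
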