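import Pool.Agent.T2H63.CZ.Stm
import Pool.Agent.R321.RC2

/-!
# Package XT: the mixed term
-/

set_option autoImplicit false
set_option maxHeartbeats 4000000

open Complex Filter Topology Set MeasureTheory

namespace Pool.Agent.T2H63.CZ

open H385

lemma XT_conj (q : ℕ) (χ : DirichletCharacter ℂ q) (n : ℕ) :
    (starRingEnd ℂ) (χ⁻¹ (n : ZMod q)) = χ (n : ZMod q) := by
  have : Finite (ZMod q)ˣ := by
    cases q with
    | zero => exact inferInstanceAs (Finite ℤˣ)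
    | succ q => infer_instance
  have h := MulChar.star_apply' χ⁻¹ (n : ZMod q)
  rw [inv_inv] at h
  exact h

/-- the pointwise bound -/
lemma XT_H (ε : ℝ) (hε : 0 < ε) (hε1 : ε ≤ 1) (T u t : ℝ) (hT0 : 0 ≤ T) (b B : ℂ) (hb : ‖b‖ ≤ 1) (n : ℕ)
    (hB : ‖B‖ = ‖bt T u t (Real.log n)‖) (hn : 2 ≤ n) :
    Real.exp (ε * Real.log n) * ‖b * (ArithmeticFunction.vonMangoldt n : ℂ) * ((Real.sqrt n : ℂ)⁻¹ * B)‖ ≤
      (Real.exp 2 * Real.exp (ε * u) * wt T t) *
        (ArithmeticFunction.vonMangoldt n / Real.sqrt n * Real.exp (-(u - Real.log n) ^ 2 / 8)) := by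
  have hw0 := wt_nonneg T t hT0
  have hL : 0 ≤ ArithmeticFunction.vonMangoldt n := ArithmeticFunction.vonMangoldt_nonneg
  have hn1 : (1 : ℝ) ≤ n := by exact_mod_cast (show 1 ≤ n by omega)
  have hn0 : (0 : ℝ) < n := by linarith
  rw [norm_mul, norm_mul, norm_mul, norm_inv, Complex.norm_real, Complex.norm_real, Real.norm_eq_abs,
    Real.norm_eq_abs, abs_of_nonneg (Real.sqrt_nonneg _), abs_of_nonneg hL, hB]
  have h1 := bt_norm T u t (Real.log n) hT0
  have h3 : 1 / Real.sqrt (2 * Real.pi) ≤ 1 := by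
    rw [div_le_one (by positivity), Real.one_le_sqrt]
    linarith [Real.pi_gt_three]
  have h4 : ‖bt T u t (Real.log n)‖ ≤ Real.exp (-(u - Real.log n) ^ 2 / 4) * wt T t := by
    refine h1.trans ?_
    refine mul_le_mul_of_nonneg_right ?_ hw0
    calc _ ≤ 1 * Real.exp (-(u - Real.log n) ^ 2 / 4) :=
          mul_le_mul_of_nonneg_right h3 (Real.exp_pos _).le
      _ = _ := one_mul _
  have h6 : Real.exp (ε * Real.log n) * Real.exp (-(u - Real.log n) ^ 2 / 4) ≤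
      Real.exp 2 * Real.exp (ε * u) * Real.exp (-(u - Real.log n) ^ 2 / 8) := by
    rw [← Real.exp_add, ← Real.exp_add, ← Real.exp_add]
    apply Real.exp_le_exp.2
    have : ε * (Real.log n - u) ≤ 2 + (u - Real.log n) ^ 2 / 8 := by
      have h7 : ε ^ 2 ≤ 1 := by nlinarith
      nlinarith [sq_nonneg (Real.log n - u - 4 * ε)]
    linarith
  calc Real.exp (ε * Real.log n) * (‖b‖ * ArithmeticFunction.vonMangoldt n *
        ((Real.sqrt n)⁻¹ * ‖bt T u t (Real.log n)‖))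
      ≤ Real.exp (ε * Real.log n) * (1 * ArithmeticFunction.vonMangoldt n *
        ((Real.sqrt n)⁻¹ * (Real.exp (-(u - Real.log n) ^ 2 / 4) * wt T t))) := by gcongr
    _ = (wt T t * (ArithmeticFunction.vonMangoldt n / Real.sqrt n)) *
        (Real.exp (ε * Real.log n) * Real.exp (-(u - Real.log n) ^ 2 / 4)) := by
          rw [div_eq_mul_inv]; ring
    _ ≤ (wt T t * (ArithmeticFunction.vonMangoldt n / Real.sqrt n)) *
        (Real.exp 2 * Real.exp (ε * u) * Real.exp (-(u - Real.log n) ^ 2 / 8)) := by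
          refine mul_le_mul_of_nonneg_left h6 ?_
          positivity
    _ = _ := by ring

/-- the abstract double sum -/
lemma XT_double (s : Finset IX) (f g : ℕ → ℂ) (H : ℕ → ℝ) (D : ℝ) (hH : Summable H) (hH0 : ∀ n, 0 ≤ H n)
    (hD : 0 ≤ D) (e : ℕ → ℝ) (he : ∀ n, 1 ≤ e n)
    (hf : ∀ n, e n * ‖f n‖ ≤ H n) (hg : ∀ n, e n * ‖g n‖ ≤ H n) (hf0 : ∀ n, n < 2 → f n = 0)
    (hg0 : ∀ n, n < 2 → g n = 0)
    (hS : ∀ m n : ℕ, 2 ≤ m → 2 ≤ n →
      ‖∑ p ∈ s, ((1 / (p.1 : ℝ) ^ 2 : ℝ) : ℂ) * p.2 ((m * n : ℕ) : ZMod p.1)‖ ≤ D * (e m * e n)) :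
    ‖∑ p ∈ s, ((1 / (p.1 : ℝ) ^ 2 : ℝ) : ℂ) * ((∑' n : ℕ, p.2 (n : ZMod p.1) * f n) *
      ∑' n : ℕ, p.2 (n : ZMod p.1) * g n)‖ ≤ D * (∑' n, H n) ^ 2 := by
  have hle : ∀ (x : ℕ → ℂ), (∀ n, e n * ‖x n‖ ≤ H n) → ∀ n, ‖x n‖ ≤ H n := fun x hx n => by
    refine le_trans ?_ (hx n)
    calc ‖x n‖ = 1 * ‖x n‖ := (one_mul _).symm
      _ ≤ e n * ‖x n‖ := mul_le_mul_of_nonneg_right (he n) (norm_nonneg _)
  have hsum : ∀ (p : IX) (x : ℕ → ℂ), (∀ n, e n * ‖x n‖ ≤ H n) →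
      Summable (fun n : ℕ => ‖p.2 (n : ZMod p.1) * x n‖) := fun p x hx => by
    refine Summable.of_nonneg_of_le (fun n => norm_nonneg _) (fun n => ?_) hH
    rw [norm_mul]
    calc _ ≤ 1 * ‖x n‖ := mul_le_mul_of_nonneg_right (DirichletCharacter.norm_le_one _ _) (norm_nonneg _)
      _ = ‖x n‖ := one_mul _
      _ ≤ H n := hle x hx n
  have e1 : ∀ p ∈ s, ((1 / (p.1 : ℝ) ^ 2 : ℝ) : ℂ) * ((∑' n : ℕ, p.2 (n : ZMod p.1) * f n) *
      ∑' n : ℕ, p.2 (n : ZMod p.1) * g n) = ∑' z : ℕ × ℕ, ((1 / (p.1 : ℝ) ^ 2 : ℝ) : ℂ) *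
        ((p.2 (z.1 : ZMod p.1) * f z.1) * (p.2 (z.2 : ZMod p.1) * g z.2)) := fun p _ => by
    rw [tsum_mul_tsum_of_summable_norm (hsum p f hf) (hsum p g hg), tsum_mul_left]
  rw [Finset.sum_congr rfl e1, ← Summable.tsum_finsetSum (fun p _ =>
    (summable_mul_of_summable_norm (hsum p f hf) (hsum p g hg)).mul_left _)]
  have hHH : Summable (fun z : ℕ × ℕ => H z.1 * H z.2) := by
    have hH' : Summable (fun n => ‖H n‖) := hH.norm
    exact summable_mul_of_summable_norm hH' hH'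
  have e2 : ∀ z : ℕ × ℕ, ‖∑ p ∈ s, ((1 / (p.1 : ℝ) ^ 2 : ℝ) : ℂ) *
        ((p.2 (z.1 : ZMod p.1) * f z.1) * (p.2 (z.2 : ZMod p.1) * g z.2))‖ ≤ D * (H z.1 * H z.2) := fun z => by
    have e3 : ∑ p ∈ s, ((1 / (p.1 : ℝ) ^ 2 : ℝ) : ℂ) *
        ((p.2 (z.1 : ZMod p.1) * f z.1) * (p.2 (z.2 : ZMod p.1) * g z.2)) =
        (∑ p ∈ s, ((1 / (p.1 : ℝ) ^ 2 : ℝ) : ℂ) * p.2 ((z.1 * z.2 : ℕ) : ZMod p.1)) * (f z.1 * g z.2) := by
      rw [Finset.sum_mul]
      refine Finset.sum_congr rfl fun p _ => ?_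
      rw [Nat.cast_mul, map_mul]
      ring
    rw [e3]
    rcases lt_or_ge z.1 2 with h1 | h1
    · rw [hf0 _ h1]
      simp only [zero_mul, mul_zero, norm_zero]
      exact mul_nonneg hD (mul_nonneg (hH0 _) (hH0 _))
    rcases lt_or_ge z.2 2 with h2 | h2
    · rw [hg0 _ h2]
      simp only [mul_zero, norm_zero]
      exact mul_nonneg hD (mul_nonneg (hH0 _) (hH0 _))
    rw [norm_mul, norm_mul]
    have he1 : 0 ≤ e z.1 := zero_le_one.trans (he _)
    have he2 : 0 ≤ e z.2 := zero_le_one.trans (he _)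
    calc _ ≤ D * (e z.1 * e z.2) * (‖f z.1‖ * ‖g z.2‖) :=
          mul_le_mul_of_nonneg_right (hS _ _ h1 h2) (by positivity)
      _ = D * ((e z.1 * ‖f z.1‖) * (e z.2 * ‖g z.2‖)) := by ring
      _ ≤ D * (H z.1 * H z.2) := by
          refine mul_le_mul_of_nonneg_left ?_ hD
          exact mul_le_mul (hf _) (hg _) (by positivity) (hH0 _)
  have hsn : Summable (fun z : ℕ × ℕ => ‖∑ p ∈ s, ((1 / (p.1 : ℝ) ^ 2 : ℝ) : ℂ) *
        ((p.2 (z.1 : ZMod p.1) * f z.1) * (p.2 (z.2 : ZMod p.1) * g z.2))‖) :=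
    Summable.of_nonneg_of_le (fun _ => norm_nonneg _) e2 (hHH.mul_left D)
  refine (norm_tsum_le_tsum_norm hsn).trans ?_
  refine (hsn.tsum_le_tsum e2 (hHH.mul_left D)).trans (le_of_eq ?_)
  rw [tsum_mul_left, sq, tsum_mul_tsum_of_summable_norm hH.norm hH.norm]

theorem T_XT (h : S_AV) : S_XT := by
  intro ε hε hε1
  obtain ⟨C1, hC1, hdiv⟩ := Pool.Agent.H369R2.divisor_bound ε hε
  obtain ⟨C2, hC2, hlam⟩ := lam_sqrt_crude
  obtain ⟨C3, hC3, hwt⟩ := wt_sq_int
  refine ⟨2 * C1 * (Real.exp 2 * C2) ^ 2 * (1 + C3), by positivity, ?_⟩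
  intro c₁ c₂ hc₁ hc₂ M X Y hX T u hT hu
  have hX0 : (0 : ℝ) < X := by exact_mod_cast hX
  have hT0 : 0 ≤ T := by linarith
  obtain ⟨hs, hle⟩ := hlam u
  set G : ℝ := ∑' n : ℕ, ArithmeticFunction.vonMangoldt n / Real.sqrt n *
        Real.exp (-(u - Real.log n) ^ 2 / 8) with hG
  have hlog0 : ∀ n : ℕ, 0 ≤ Real.log n := fun n => Real.log_natCast_nonneg n
  have hΛ : ∀ n : ℕ, n < 2 → ArithmeticFunction.vonMangoldt n = 0 := fun n hn => by
    interval_cases n
    · simp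
    · simp
  have hpt : ∀ t : ℝ, ‖∑ p ∈ primSetM M X Y, ((1 / (p.1 : ℝ) ^ 2 : ℝ) : ℂ) *
      (PA c₁ p.1 p.2 T u t * (starRingEnd ℂ) (PA c₂ p.1 p.2⁻¹ T u t))‖ ≤
      (2 * C1 / X * (Real.exp 2 * C2) ^ 2 * Real.exp ((1 + 2 * ε) * u)) * (wt T t) ^ 2 := by
    intro t
    have hw0 := wt_nonneg T t hT0
    set f : ℕ → ℂ := fun n => c₁ n * (ArithmeticFunction.vonMangoldt n : ℂ) *
      ((Real.sqrt n : ℂ)⁻¹ * bt T u t (Real.log n)) with hf
    set g : ℕ → ℂ := fun n => (starRingEnd ℂ) (c₂ n) * (ArithmeticFunction.vonMangoldt n : ℂ) *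
      ((Real.sqrt n : ℂ)⁻¹ * (starRingEnd ℂ) (bt T u t (Real.log n))) with hg
    set H : ℕ → ℝ := fun n => (Real.exp 2 * Real.exp (ε * u) * wt T t) *
        (ArithmeticFunction.vonMangoldt n / Real.sqrt n * Real.exp (-(u - Real.log n) ^ 2 / 8)) with hH
    have hHs : Summable H := hs.mul_left _
    have hH0 : ∀ n, 0 ≤ H n := fun n => by
      have : 0 ≤ ArithmeticFunction.vonMangoldt n := ArithmeticFunction.vonMangoldt_nonneg
      rw [hH]
      positivity
    have hf0 : ∀ n, n < 2 → f n = 0 := fun n hn => by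
      rw [hf]
      simp only
      rw [hΛ n hn]
      simp
    have hg0 : ∀ n, n < 2 → g n = 0 := fun n hn => by
      rw [hg]
      simp only
      rw [hΛ n hn]
      simp
    have hfH : ∀ n : ℕ, Real.exp (ε * Real.log n) * ‖f n‖ ≤ H n := fun n => by
      rcases lt_or_ge n 2 with hn | hn
      · rw [hf0 n hn, norm_zero, mul_zero]
        exact hH0 n
      · exact XT_H ε hε hε1 T u t hT0 (c₁ n) _ (hc₁ n) n rfl hn
    have hgH : ∀ n : ℕ, Real.exp (ε * Real.log n) * ‖g n‖ ≤ H n := fun n => by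
      rcases lt_or_ge n 2 with hn | hn
      · rw [hg0 n hn, norm_zero, mul_zero]
        exact hH0 n
      · exact XT_H ε hε hε1 T u t hT0 ((starRingEnd ℂ) (c₂ n)) _ (by rw [RCLike.norm_conj]; exact hc₂ n) n
          (RCLike.norm_conj _) hn
    have hPA1 : ∀ p : IX, PA c₁ p.1 p.2 T u t = ∑' n : ℕ, p.2 (n : ZMod p.1) * f n := fun p => by
      unfold PA
      refine tsum_congr fun n => ?_
      rw [hf]
      ring
    have hPA2 : ∀ p : IX, (starRingEnd ℂ) (PA c₂ p.1 p.2⁻¹ T u t) =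
        ∑' n : ℕ, p.2 (n : ZMod p.1) * g n := fun p => by
      unfold PA
      rw [Complex.conj_tsum]
      refine tsum_congr fun n => ?_
      rw [map_mul, map_mul, map_mul, map_mul, XT_conj, Complex.conj_ofReal, map_inv₀, Complex.conj_ofReal, hg]
      ring
    simp only [hPA1, hPA2]
    refine (XT_double (primSetM M X Y) f g H (2 * C1 / X) hHs hH0 (by positivity)
      (fun n => Real.exp (ε * Real.log n)) (fun n => Real.one_le_exp (mul_nonneg hε.le (hlog0 n)))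
      hfH hgH hf0 hg0 ?_).trans ?_
    · intro m n hm hn
      have hm0 : (0 : ℝ) < m := by exact_mod_cast (show 0 < m by omega)
      have hn0 : (0 : ℝ) < n := by exact_mod_cast (show 0 < n by omega)
      have hmn : 4 ≤ m * n := by nlinarith
      refine (h M X Y hX (m * n) (by omega)).trans ?_
      have h5 : ((m * n - 1).divisors.card : ℝ) ≤ C1 * (Real.exp (ε * Real.log m) * Real.exp (ε * Real.log n)) := by
        refine (hdiv (m * n - 1) (by omega)).trans ?_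
        refine mul_le_mul_of_nonneg_left ?_ hC1.le
        have e1 : Real.exp (ε * Real.log m) * Real.exp (ε * Real.log n) = ((m * n : ℕ) : ℝ) ^ ε := by
          rw [← Real.exp_add, ← mul_add, ← Real.log_mul hm0.ne' hn0.ne', Nat.cast_mul,
            Real.rpow_def_of_pos (by positivity), mul_comm]
        rw [e1]
        refine Real.rpow_le_rpow (by positivity) ?_ hε.le
        exact_mod_cast Nat.sub_le (m * n) 1
      calc 2 * ((m * n - 1).divisors.card : ℝ) / X ≤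
          2 * (C1 * (Real.exp (ε * Real.log m) * Real.exp (ε * Real.log n))) / X := by gcongr
        _ = _ := by ring
    · have e1 : ∑' n, H n = (Real.exp 2 * Real.exp (ε * u) * wt T t) * G := by
        rw [hH, hG]
        exact tsum_mul_left
      have hG0 : 0 ≤ G := by
        rw [hG]
        refine tsum_nonneg fun n => ?_
        have : 0 ≤ ArithmeticFunction.vonMangoldt n := ArithmeticFunction.vonMangoldt_nonneg
        positivity
      have e2 : ∑' n, H n ≤ (Real.exp 2 * Real.exp (ε * u) * wt T t) * (C2 * Real.exp (u / 2)) := by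
        rw [e1]
        exact mul_le_mul_of_nonneg_left hle (by positivity)
      have e3 : 0 ≤ ∑' n, H n := tsum_nonneg hH0
      calc 2 * C1 / X * (∑' n, H n) ^ 2 ≤
          2 * C1 / X * ((Real.exp 2 * Real.exp (ε * u) * wt T t) * (C2 * Real.exp (u / 2))) ^ 2 :=
            mul_le_mul_of_nonneg_left (pow_le_pow_left₀ e3 e2 2) (by positivity)
        _ = _ := by
            have e4 : Real.exp ((1 + 2 * ε) * u) = (Real.exp (ε * u) * Real.exp (u / 2)) ^ 2 := by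
              rw [← Real.exp_add, ← Real.exp_nat_mul]
              congr 1
              push_cast
              ring
            rw [e4]
            ring
  obtain ⟨hwi, hwle⟩ := hwt T hT0
  calc _ ≤ ∫ t : ℝ, (2 * C1 / X * (Real.exp 2 * C2) ^ 2 * Real.exp ((1 + 2 * ε) * u)) * (wt T t) ^ 2 := by
        refine integral_mono_of_nonneg (Filter.Eventually.of_forall fun t => norm_nonneg _)
          (hwi.const_mul _) (Filter.Eventually.of_forall hpt)
    _ = (2 * C1 / X * (Real.exp 2 * C2) ^ 2 * Real.exp ((1 + 2 * ε) * u)) *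
        ∫ t : ℝ, (wt T t) ^ 2 := integral_const_mul _ _
    _ ≤ (2 * C1 / X * (Real.exp 2 * C2) ^ 2 * Real.exp ((1 + 2 * ε) * u)) * (T * (1 + C3)) := by
        refine mul_le_mul_of_nonneg_left (hwle.trans ?_) (by positivity)
        nlinarith
    _ = _ := by ring

end Pool.Agent.T2H63.CZ
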