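import Pool.Agent.T2H63.CZ.T_NW
import Pool.Agent.T2H63.CZ.T_YR
import Pool.Agent.T2H63.CZ.T_AV
import Pool.Agent.T2H63.CZ.T_XT
import Pool.Agent.T2H63.CZ.T_MS
import Pool.Agent.T2H63.CZ.T_LV
import Pool.Agent.T2H63.CZ.T_HC
import Pool.Agent.T2H63.CZ.T_FC
import Pool.Agent.T2H63.CZ.T_NU
import Pool.Agent.T2H63.CZ.T_CN
import Pool.Agent.T2H63.CZ.T_GD
import Pool.Agent.T2H63.CZ.T_SL
import Pool.Agent.T2H63.CZ.T_RE

set_option autoImplicit false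

namespace Pool.Agent.T2H63.CZ

theorem relation : S_RE :=
  T_RE (T_CN (T_YR T_NW) T_LV (T_HC (T_MS (T_XT T_AV))) T_FC T_NU) T_GD T_SL

end Pool.Agent.T2H63.CZ
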