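import Pool.Agent.T2H25.ZR.A5
import Pool.Agent.R321.RC6

/-!
# Project CZ: common zeros of `L(s, χ ψ₁)` and of `L(s + iα, χ⁻¹ ψ₂)`, on average over `χ`

Package `XX` proves `theorem T_XX : S_XX` (used packages are hypotheses) in
`Pool/Agent/T2H63/CZ/T_XX.lean`, namespace `Pool.Agent.T2H63.CZ`, auxiliary lemmas prefixed by `XX_`.

The method is that of the starting files (`H385R2`, `R321/RC`, `R321/RG`, `T2H25/ZR`): the trace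
inequality for zeros (`fam_abstract_D`, `fam_abstract_d_D`) is applied to the product
`L(s, χ ψ₁) L(s + iα, χ⁻¹ ψ₂)` with the coefficients `χ(n) c₁(n) Λ(n) + χ⁻¹(n) c₂(n) Λ(n)`. New: the
mixed term `∑_χ a_χ(t) conj (b_χ(t))` contains `χ(m) χ(n) = χ(mn)`, whose average over the family is
`≤ 2 τ(mn - 1) / X`; so it is negligible for `u ≤ 0.99 log X`, and for larger `u` we use
`‖a + b‖² ≤ 2 ‖a‖² + 2 ‖b‖²`; this is the weight `vv` below.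
-/

set_option autoImplicit false
set_option maxHeartbeats 4000000

open Complex Filter Topology Set MeasureTheory
open H370 (zset mult NN Nd Ns GoodL)

namespace Pool.Agent.T2H63.CZ

open H385
open Pool.Agent.T2H25.ZR

/-! ### definitions -/

/-- coefficients of the product -/
noncomputable def cc2 (c₁ c₂ : ℕ → ℂ) (q : ℕ) (χ : DirichletCharacter ℂ q) (n : ℕ) : ℂ :=
  χ (n : ZMod q) * c₁ n * (ArithmeticFunction.vonMangoldt n : ℂ) +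
    χ⁻¹ (n : ZMod q) * c₂ n * (ArithmeticFunction.vonMangoldt n : ℂ)

/-- the prime sum with the coefficients `χ(n) c(n) Λ(n)` -/
noncomputable def PA (c : ℕ → ℂ) (q : ℕ) (χ : DirichletCharacter ℂ q) (T u t : ℝ) : ℂ :=
  ∑' n : ℕ, (χ (n : ZMod q) * c n * (ArithmeticFunction.vonMangoldt n : ℂ)) *
    ((Real.sqrt n : ℂ)⁻¹ * bt T u t (Real.log n))

/-- the prime sum of the product -/
noncomputable def PC (c₁ c₂ : ℕ → ℂ) (q : ℕ) (χ : DirichletCharacter ℂ q) (T u t : ℝ) : ℂ :=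
  ∑' n : ℕ, cc2 c₁ c₂ q χ n * ((Real.sqrt n : ℂ)⁻¹ * bt T u t (Real.log n))

/-- nonnegative bounded Lipschitz weights which vanish for `α > 1` -/
structure LR (R : ℝ → ℝ) (B : ℝ) : Prop where
  nonneg : ∀ α, 0 ≤ R α
  le : ∀ α, R α ≤ B
  lip : ∃ K : ℝ, 0 < K ∧ ∀ x y, |R x - R y| ≤ K * |x - y|
  zero : ∀ α, 1 < α → R α = 0

/-- `1` for `α ≤ 0.49`, `2` for `α ≥ 0.495`, linear in between -/
noncomputable def vv (α : ℝ) : ℝ := 1 + min 1 (max 0 (200 * (α - 49 / 100)))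

/-- mean square hypothesis with the weight `R` (as `HYM`, but the majorant is continuous) -/
def HYR (M : ℕ) (c : ℕ → ℂ) (R : ℝ → ℝ) (β c' : ℝ) : Prop := ∀ ε : ℝ, 0 < ε →
  ∃ K η X0 : ℝ, 1 ≤ K ∧ 0 < η ∧ 1 ≤ X0 ∧
  ∀ (X Y : ℕ) (T : ℝ), X0 ≤ X → K * X ≤ Y → (Y : ℝ) ≤ (X : ℝ) ^ (1 + η) →
    (Real.log X) ^ 2 ≤ T → T ≤ (X : ℝ) ^ η →
  ∃ (Yf : ℝ → ℝ) (y1 y2 : ℝ), 0 ≤ y1 ∧ 0 ≤ y2 ∧
    (∀ u ∈ Set.Icc 0 (β * Real.log X), ∫ t : ℝ, primFamM M X Y (fun q χ =>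
      ‖PA c q χ T u t‖ ^ 2) ≤ Yf u) ∧
    (∀ u ∈ Set.Icc 0 (β * Real.log X), Yf u ≤ T * (y1 * (u + 1) + y2)) ∧
    Continuous Yf ∧
    (2 / (Real.sqrt Real.pi * (β * Real.log X))) * (∫ u in (0 : ℝ)..(β * Real.log X),
      R (u / (β * Real.log X)) * Yf u) ≤
      T / (2 * Real.pi) * Real.log X * WM M X Y * (c' + ε) ∧
    Real.sqrt y1 + Real.sqrt y2 ≤ ε * Real.log X * Real.sqrt (WM M X Y)

/-- mean square hypothesis for the product -/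
def HYC (M : ℕ) (c₁ c₂ : ℕ → ℂ) (γ β c' : ℝ) : Prop := ∀ ε : ℝ, 0 < ε →
  ∃ K η X0 : ℝ, 1 ≤ K ∧ 0 < η ∧ 1 ≤ X0 ∧
  ∀ (X Y : ℕ) (T : ℝ), X0 ≤ X → K * X ≤ Y → (Y : ℝ) ≤ (X : ℝ) ^ (1 + η) →
    (Real.log X) ^ 2 ≤ T → T ≤ (X : ℝ) ^ η →
  ∃ (Yf : ℝ → ℝ) (y1 y2 : ℝ), 0 ≤ y1 ∧ 0 ≤ y2 ∧
    (∀ u ∈ Set.Icc 0 (β * Real.log X), ∫ t : ℝ, primFamM M X Y (fun q χ =>
      ‖PC c₁ c₂ q χ T u t‖ ^ 2) ≤ Yf u) ∧
    (∀ u ∈ Set.Icc 0 (β * Real.log X), Yf u ≤ T * (y1 * (u + 1) + y2)) ∧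
    IntervalIntegrable Yf volume 0 (β * Real.log X) ∧
    (2 / (Real.sqrt Real.pi * (β * Real.log X))) * (∫ u in (0 : ℝ)..(β * Real.log X),
      Rw γ (u / (β * Real.log X)) * Yf u) ≤
      T / (2 * Real.pi) * Real.log X * WM M X Y * (c' + ε) ∧
    Real.sqrt y1 + Real.sqrt y2 ≤ ε * Real.log X * Real.sqrt (WM M X Y)

/-- the family of products (compare `TwD`) -/
def TwC (A : ℝ) (M : ℕ) (c₁ c₂ : ℕ → ℂ) (F : (q : ℕ) → DirichletCharacter ℂ q → ℂ → ℂ) : Prop :=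
  ∀ (q : ℕ) (χ : DirichletCharacter ℂ q), 2 ≤ q → Nat.Coprime q M → χ.IsPrimitive →
    GoodD 2 A q (F q χ) (cc2 c₁ c₂ q χ)

/-! ### packages -/

/-- NW. `nwa_smooth` (H385R2/NTWabs.lean) without monotonicity of the weight. Copy its proof; the only
use of `anti` is in `nt_abel_bound` (and `R ≤ R 0`, replace `R 0` by `B`; `B ≥ 0` follows). Replace
`nt_abel_bound` by discrete Abel summation for the Lipschitz function `f s = R (s / Λ)` (constant `K / Λ`):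
`∑_{n ≤ N} w n f(log n) = ∑_{n < N} W(n) (f(log n) - f(log (n+1))) + W(N) f(log N)`, `W(n) = (log n)²/2 + E(n)`,
`|E(n)| ≤ C0 (1 + log n)`, `|f(log n) - f(log(n+1))| ≤ (K / Λ) (log (n+1) - log n)`, `log N ≤ 2 Λ`; the part
with `(log n)²/2` is `∑ f(log n) ((log n)² - (log (n-1))²)/2 ≤ ∫_0^{log N} s f(s) ds + O(Λ)` (`f` Lipschitz:
on `[log (n-1), log n]` one has `f(log n) ≤ f(s) + K (log n - log (n-1)) / Λ`). See also `H385.mert_abel`. Also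
`ntw_In_bound`, `ntw_In_tail`, `ntw_int_bound` (H385R2/NTW.lean) are to be copied (they use little). -/
def S_NW : Prop := ∀ (R : ℝ → ℝ) (B : ℝ), LR R B → ∀ w : ℕ → ℝ, (∀ n, 0 ≤ w n) → w 0 = 0 →
  ∀ C0 : ℝ, (∀ x : ℝ, 1 ≤ x → |∑ n ∈ Finset.Icc 1 ⌊x⌋₊, w n - (Real.log x) ^ 2 / 2| ≤
      C0 * (1 + Real.log x)) → ∃ C : ℝ, 0 < C ∧ ∀ Λ : ℝ, 1 ≤ Λ →
    ∫ u in (0 : ℝ)..Λ, R (u / Λ) * ∑' n : ℕ, w n * Real.exp (-(u - Real.log n) ^ 2) ≤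
      Real.sqrt Real.pi * Λ ^ 2 * (∫ α in (0 : ℝ)..1, α * R α) + C * Λ

/-- YR. Copy of `HYM_stage1` (H385R2/FinDB3.lean) with `YM_integral` (FinDB1) and `YM_final` (FinDB2),
`Rw γ` replaced by `R`, `Rw γ 0` by `B`, `lam_smooth_abs` by `S_NW` (with `w = wc c`, `SW c` is its smoothed
sum), `Rw_le` by `LR.le`; the majorant is `YM c …`, continuous by `YM_cont`. -/
def S_YR : Prop := ∀ (M : ℕ), Squarefree M → ∀ d : ℝ, 1 ≤ d → ∀ c : ℕ → ℂ, (∀ n, ‖c n‖ ≤ d) →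
  ∀ C0 : ℝ, Selb c C0 → ∀ (R : ℝ → ℝ) (B : ℝ), LR R B → ∀ β : ℝ, 0 < β → β < 2 →
    HYR M c R β (2 * β * (∫ α in (0 : ℝ)..1, α * R α))

/-- AV. As `RC.fam_sps_le` (R321/RC1.lean), sum over the `q` prime to `M` only (the bound there is a sum
of nonnegative terms over `q`, so the subset is harmless). -/
def S_AV : Prop := ∀ (M X Y : ℕ), 0 < X → ∀ n : ℕ, 2 ≤ n →
  ‖∑ p ∈ primSetM M X Y, ((1 / (p.1 : ℝ) ^ 2 : ℝ) : ℂ) * p.2 (n : ZMod p.1)‖ ≤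
    2 * ((n - 1).divisors.card : ℝ) / X

/-- XT (the new estimate). For each `t`: `conj (PA c₂ q χ⁻¹ T u t) = ∑' n χ(n) conj(c₂ n) Λ(n) (√n)⁻¹ conj (bt …)`
(`conj (χ⁻¹ n) = χ n`, also for `n` not prime to `q`), the product of the two absolutely convergent sums is
`∑'_(m,n) χ(mn) …` (`tsum_mul_tsum_of_summable_norm`), the finite sum over `p` goes inside, and by
`S_AV` (`mn ≥ 4` where `Λ(m) Λ(n) ≠ 0`) the modulus is `≤ (2 / X) ∑_(m,n) τ(mn - 1) Λ(m) Λ(n) (mn)^(-1/2)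
‖bt(log m)‖ ‖bt(log n)‖ ≤ (2 C₁ / X) (∑_n n^ε Λ(n) n^(-1/2) ‖bt T u t (log n)‖)²` (`divisor_bound`); the inner sum is
`≤ C exp (ε u + u / 2) wt T t` exactly as in the proof of `RC.Pf_small` (R321/RC2.lean), `∫ (wt T t)² ≤ T + C₃`
(`wt_sq_int`). -/
def S_XT : Prop := ∀ ε : ℝ, 0 < ε → ε ≤ 1 → ∃ C : ℝ, 0 < C ∧ ∀ (c₁ c₂ : ℕ → ℂ),
  (∀ n, ‖c₁ n‖ ≤ 1) → (∀ n, ‖c₂ n‖ ≤ 1) → ∀ (M X Y : ℕ), 0 < X → ∀ (T u : ℝ), 1 ≤ T → 0 ≤ u →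
    ∫ t : ℝ, ‖∑ p ∈ primSetM M X Y, ((1 / (p.1 : ℝ) ^ 2 : ℝ) : ℂ) *
      (PA c₁ p.1 p.2 T u t * (starRingEnd ℂ) (PA c₂ p.1 p.2⁻¹ T u t))‖ ≤
      C * (T * Real.exp ((1 + 2 * ε) * u) / X)

/-- MS. `PC c₁ c₂ q χ = PA c₁ q χ + PA c₂ q χ⁻¹` (as `RC.Pf_add`), `‖a + b‖² = ‖a‖² + ‖b‖² + 2 Re (a conj b)` and
`≤ 2 ‖a‖² + 2 ‖b‖²`; the family is invariant under `χ ↦ χ⁻¹` (`primFamM_eq`, `Finset.sum_bij` /
reindexing of the finsum; `χ⁻¹` is primitive iff `χ` is), so the sum of `‖PA c₂ q χ⁻¹‖²` is that of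
`‖PA c₂ q χ‖²`. Integrability: `fa_Pf_int`, `fa_Pf_cont` (H385R2/FamBase), `‖c‖ ≤ 1`; compare `RC.ms_pairs`. -/
def S_MS : Prop := ∀ ε : ℝ, 0 < ε → ε ≤ 1 → ∃ C : ℝ, 0 < C ∧ ∀ (c₁ c₂ : ℕ → ℂ),
  (∀ n, ‖c₁ n‖ ≤ 1) → (∀ n, ‖c₂ n‖ ≤ 1) → ∀ (M X Y : ℕ), 0 < X →
  ∀ (T u Z₁ Z₂ : ℝ), 1 ≤ T → 0 ≤ u →
    ∫ t : ℝ, primFamM M X Y (fun q χ => ‖PA c₁ q χ T u t‖ ^ 2) ≤ Z₁ →
    ∫ t : ℝ, primFamM M X Y (fun q χ => ‖PA c₂ q χ T u t‖ ^ 2) ≤ Z₂ →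
    ∫ t : ℝ, primFamM M X Y (fun q χ => ‖PC c₁ c₂ q χ T u t‖ ^ 2) ≤
      Z₁ + Z₂ + C * (T * Real.exp ((1 + 2 * ε) * u) / X) ∧
    ∫ t : ℝ, primFamM M X Y (fun q χ => ‖PC c₁ c₂ q χ T u t‖ ^ 2) ≤ 2 * (Z₁ + Z₂)

/-- LV. `vv · Rw γ` is a weight: `NTR_Rw` (H385R2/NTW.lean) gives the properties of `Rw γ`, `1 ≤ vv ≤ 2`, `vv` is
Lipschitz with constant `200`. -/
def S_LV : Prop := ∀ γ : ℝ, 0 < γ → γ < Real.pi → LR (fun α => vv α * Rw γ α) (2 * Rw γ 0)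

/-- HC. Copy of `RC.HY_pairs` (R321/RC4.lean). With `Y₁, Y₂` from `HYR` for `c₁`, `c₂` (weight `R = vv · Rw γ`,
precision `ε / 4`; `1 ≤ WM M X Y` from `prim_mass_M` as in `T2H25.ZR.relation` by enlarging `K`) take
`Yf u = vv (u / (β L)) (Y₁ u + Y₂ u) + C T exp (- L / 200)`, `L = log X`, `C` from `S_MS` with `ε = 1/1000`. For
`u < (99/200) β L` use the first inequality of `S_MS`: `(1 + 2/1000) u ≤ 1.002 · 0.99 L`, so the last term is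
`≤ C T exp (- L / 200)`, and `vv ≥ 1` (`Y₁, Y₂ ≥ 0` on the interval as they majorize integrals of nonnegative functions);
for `u ≥ (99/200) β L` use the second one, `vv = 2`. Growth: `vv ≤ 2`, `y1 = 2 (y1' + y1'')`, `y2 = 2 (y2' + y2'') +
C exp (- L / 200)`. -/
def S_HC : Prop := ∀ (M : ℕ), Squarefree M → ∀ (c₁ c₂ : ℕ → ℂ), (∀ n, ‖c₁ n‖ ≤ 1) →
  (∀ n, ‖c₂ n‖ ≤ 1) → ∀ (γ β k₁ k₂ : ℝ), 0 < γ → γ < Real.pi → 1 < β → β < 2 → 0 ≤ k₁ → 0 ≤ k₂ →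
  HYR M c₁ (fun α => vv α * Rw γ α) β k₁ → HYR M c₂ (fun α => vv α * Rw γ α) β k₂ →
  HYC M c₁ c₂ γ β (k₁ + k₂)

/-- FC. Copy of `final_core_D` (H385R2/FinDA.lean) with `d = 2` and the coefficients `cc2 c₁ c₂`. -/
def S_FC : Prop := ∀ (A : ℝ), 1 ≤ A → ∀ (M : ℕ) (c₁ c₂ : ℕ → ℂ)
    (F : (q : ℕ) → DirichletCharacter ℂ q → ℂ → ℂ), TwC A M c₁ c₂ F →
    ∀ (γ β c' : ℝ), 0 < γ → γ < Real.pi → 0 < β → 0 ≤ c' →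
    0 ≤ Rw γ 0 → HYC M c₁ c₂ γ β c' → ∀ ε : ℝ, 0 < ε →
    ∃ K η X0 : ℝ, 1 ≤ K ∧ 0 < η ∧ 1 ≤ X0 ∧
    ∀ (X Y : ℕ) (T : ℝ), X0 ≤ X → K * X ≤ Y → (Y : ℝ) ≤ (X : ℝ) ^ (1 + η) →
      (Real.log X) ^ 2 ≤ T → T ≤ (X : ℝ) ^ η →
      primFamM M X Y (fun q χ => 2 * (NN (F q χ) T (2 * T) : ℝ) - (Ns (F q χ) T (2 * T) : ℝ)) ≤
        (2 * Rw γ 0 / β + c' / 2 + ε) * primFamM M X Y (fun q χ => (NN (F q χ) T (2 * T) : ℝ)) ∧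
      primFamM M X Y (fun q χ => 3 * (NN (F q χ) T (2 * T) : ℝ) - 2 * (Nd (F q χ) T (2 * T) : ℝ)) ≤
        (2 * Rw γ 0 / β + c' / 2 + ε) * primFamM M X Y (fun q χ => (NN (F q χ) T (2 * T) : ℝ))

/-- NU. Numerics: the value is `1.86570`. With `K = (γ / (2 sin (γ/2)))² / 2`, `γ = 3`: `Rw 3 α = nm 3 α K` on
`[0, 1]`, antiderivative `N2` (`WinC.N2_deriv`), as in `RC.Rw_const_pair` (R321/RC6.lean) and `RG.Rw_const_lt`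
(R321/RG3.lean); cosine and sine of `3/2` as `RC.trig_34`, then double angles; for the piece from `49/100` to `1/2` one can
use `Rw 3 α ≤ Rw 3 (49/100)` or anything crude (it is `≤ 0.01 · 0.5 · 0.44`; there is a slack of `0.004`). -/
def S_NU : Prop := Rw 3 0 + 4 * (∫ α in (0 : ℝ)..1, α * Rw 3 α) +
  4 * (∫ α in (49 / 100 : ℝ)..1, α * Rw 3 α) < 1.87

/-- CN. As `RG.final_two` (R321/RG2.lean), `γ = 3`: `∫ α vv α Rw 3 α ≤ ∫_0^1 α Rw 3 α + ∫_{0.49}^1 α Rw 3 α`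
(`vv ≤ 2`, `vv = 1` for `α ≤ 0.49`), `β = 2 - s` with small `s`, `k₁ = k₂ = 2 β ∫ α vv Rw`. -/
def S_CN : Prop := ∀ (A : ℝ), 1 ≤ A → ∀ (M : ℕ), Squarefree M → ∀ (c₁ c₂ : ℕ → ℂ),
    (∀ n, ‖c₁ n‖ ≤ 1) → (∀ n, ‖c₂ n‖ ≤ 1) → ∀ C0 : ℝ, Selb c₁ C0 → Selb c₂ C0 →
    ∀ (F : (q : ℕ) → DirichletCharacter ℂ q → ℂ → ℂ), TwC A M c₁ c₂ F →
    ∃ K η X0 : ℝ, 1 ≤ K ∧ 0 < η ∧ 1 ≤ X0 ∧
    ∀ (X Y : ℕ) (T : ℝ), X0 ≤ X → K * X ≤ Y → (Y : ℝ) ≤ (X : ℝ) ^ (1 + η) →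
      (Real.log X) ^ 2 ≤ T → T ≤ (X : ℝ) ^ η →
      0.13 * primFamM M X Y (fun q χ => (NN (F q χ) T (2 * T) : ℝ)) ≤
        primFamM M X Y (fun q χ => (Ns (F q χ) T (2 * T) : ℝ)) ∧
      0.565 * primFamM M X Y (fun q χ => (NN (F q χ) T (2 * T) : ℝ)) ≤
        primFamM M X Y (fun q χ => (Nd (F q χ) T (2 * T) : ℝ))

/-- the product `L(s, χ ψ₁) L(s + iα, χ⁻¹ ψ₂)` -/
noncomputable def FG {f₁ f₂ : ℕ} (ψ₁ : DirichletCharacter ℂ f₁) (ψ₂ : DirichletCharacter ℂ f₂) (α : ℝ)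
    (q : ℕ) (χ : DirichletCharacter ℂ q) : ℂ → ℂ := fun s => Lt ψ₁ q χ s * sh α (Lt ψ₂ q χ⁻¹) s

/-- GD. As `good_both` and `FF_good` (T2H25/ZR/A4.lean), with `χ⁻¹` (primitive of the same conductor) in the
second factor. The first part is `good_both` for `χ` and `χ⁻¹`. -/
def S_GD : Prop := ∀ (f₁ f₂ : ℕ) [NeZero f₁] [NeZero f₂] (ψ₁ : DirichletCharacter ℂ f₁)
    (ψ₂ : DirichletCharacter ℂ f₂), ψ₁.IsPrimitive → ψ₂.IsPrimitive → ∀ α : ℝ, 0 ≤ α →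
    (∃ A : ℝ, 1 ≤ A ∧ ∀ (q : ℕ) (χ : DirichletCharacter ℂ q), 1 ≤ q →
      Nat.Coprime q (f₁ * f₂) → χ.IsPrimitive →
      GoodU A ((q : ℝ) * f₁) (Lt ψ₁ q χ) (fun n => χ (n : ZMod q) * ψ₁ (n : ZMod f₁) *
        (ArithmeticFunction.vonMangoldt n : ℂ)) ∧
      GoodU A ((1 + α) * ((q : ℝ) * f₂)) (sh α (Lt ψ₂ q χ⁻¹)) (fun n => χ⁻¹ (n : ZMod q) *
        ψ₂ (n : ZMod f₂) * (ArithmeticFunction.vonMangoldt n : ℂ) * ni α n)) ∧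
    ∀ M : ℕ, (∀ q : ℕ, Nat.Coprime q M → Nat.Coprime q (f₁ * f₂)) →
      ∃ A : ℝ, 1 ≤ A ∧ TwC A M (fun n => ψ₁ (n : ZMod f₁)) (fun n => ψ₂ (n : ZMod f₂) * ni α n)
        (FG ψ₁ ψ₂ α)

/-- SL. As `selb_cA` (T2H25/ZR/A3.lean), simpler: `‖c n‖² = 1` for `n` prime to `f` and `0` otherwise
(`norm_sq_char`, `noncop`, `sel_nat`, `sel_real`, `H370.nt_mertens_lower/upper`). -/
def S_SL : Prop := ∀ (f : ℕ) [NeZero f] (ψ : DirichletCharacter ℂ f) (α : ℝ),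
  ∃ C : ℝ, Selb (fun n => ψ (n : ZMod f) * ni α n) C

/-- RE. As `T2H25.ZR.relation` (A5.lean) for `F = L(s, χ ψ₁)`, `G = L(s + iα, χ⁻¹ ψ₂)`, without the part with `Al`
(`Selb` for `ψ₁` is `S_SL` with `α = 0`, `ni 0 n = 1`; for `Selb` with one constant take the maximum, `log x ≥ 0`). -/
def S_RE : Prop := ∀ (f₁ f₂ : ℕ) [NeZero f₁] [NeZero f₂] (ψ₁ : DirichletCharacter ℂ f₁)
    (ψ₂ : DirichletCharacter ℂ f₂), ψ₁.IsPrimitive → ψ₂.IsPrimitive → ∀ α : ℝ, 0 ≤ α →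
    ∀ (M : ℕ), Squarefree M → (∀ q : ℕ, Nat.Coprime q M → Nat.Coprime q (f₁ * f₂)) →
    ∃ K η X0 : ℝ, 1 ≤ K ∧ 0 < η ∧ 1 ≤ X0 ∧
    ∀ (X Y : ℕ) (T : ℝ), X0 ≤ X → K * X ≤ Y → (Y : ℝ) ≤ (X : ℝ) ^ (1 + η) →
      (Real.log X) ^ 2 ≤ T → T ≤ (X : ℝ) ^ η →
      0 < primFamM M X Y (fun q χ => ((NN (Lt ψ₁ q χ) T (2 * T) +
        NN (sh α (Lt ψ₂ q χ⁻¹)) T (2 * T) : ℕ) : ℝ)) ∧
      (∀ q : ℕ, X < q → Nat.Coprime q M → ∀ χ : DirichletCharacter ℂ q, χ.IsPrimitive →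
        (zset (Lt ψ₁ q χ) T (2 * T)).Finite ∧ (zset (sh α (Lt ψ₂ q χ⁻¹)) T (2 * T)).Finite) ∧
      0.13 * primFamM M X Y (fun q χ => ((NN (Lt ψ₁ q χ) T (2 * T) +
        NN (sh α (Lt ψ₂ q χ⁻¹)) T (2 * T) : ℕ) : ℝ)) ≤
        primFamM M X Y (fun q χ => ((Pool.Agent.R321.RC.On (Lt ψ₁ q χ) (sh α (Lt ψ₂ q χ⁻¹)) T +
          Pool.Agent.R321.RC.On (sh α (Lt ψ₂ q χ⁻¹)) (Lt ψ₁ q χ) T : ℕ) : ℝ)) ∧
      0.565 * primFamM M X Y (fun q χ => ((NN (Lt ψ₁ q χ) T (2 * T) +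
        NN (sh α (Lt ψ₂ q χ⁻¹)) T (2 * T) : ℕ) : ℝ)) ≤
        primFamM M X Y (fun q χ => ((zset (Lt ψ₁ q χ) T (2 * T) ∪
          zset (sh α (Lt ψ₂ q χ⁻¹)) T (2 * T)).ncard : ℝ)) ∧
      primFamM M X Y (fun q χ =>
          (Pool.Agent.R321.RC.Cm (Lt ψ₁ q χ) (sh α (Lt ψ₂ q χ⁻¹)) T : ℝ)) ≤
        0.435 * primFamM M X Y (fun q χ => ((NN (Lt ψ₁ q χ) T (2 * T) +
        NN (sh α (Lt ψ₂ q χ⁻¹)) T (2 * T) : ℕ) : ℝ))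

end Pool.Agent.T2H63.CZ
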