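import Pool.Agent.T2H63.CZ.Stm

/-!
# NW: prime sums for a Lipschitz weight (no monotonicity)
-/

set_option autoImplicit false
set_option maxHeartbeats 4000000

open Finset MeasureTheory

namespace Pool.Agent.T2H63.CZ

open H370 H385

theorem NW_cont {R : ℝ → ℝ} (h : ∃ K : ℝ, 0 < K ∧ ∀ x y, |R x - R y| ≤ K * |x - y|) :
    Continuous R := by
  obtain ⟨K, hK, h⟩ := h
  exact (LipschitzWith.of_dist_le_mul (K := ⟨K, hK.le⟩) (fun x y => by
    rw [Real.dist_eq, Real.dist_eq]; exact h x y)).continuous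

theorem NW_In_bound {R : ℝ → ℝ} (hc : Continuous R) (hnn : ∀ α, 0 ≤ R α) (K : ℝ) (hK : 0 < K)
    (hlip : ∀ x y, |R x - R y| ≤ K * |x - y|) (Λ ℓ : ℝ) (hΛ : 0 < Λ) :
    ∫ u in (0 : ℝ)..Λ, R (u / Λ) * Real.exp (-(u - ℓ) ^ 2) ≤
      Real.sqrt Real.pi * R (ℓ / Λ) + K / Λ * ntG := by
  have hi0 : Integrable (fun u : ℝ => Real.exp (-(u - ℓ) ^ 2)) := nt_int0.comp_sub_right ℓ
  have hi1 : Integrable (fun u : ℝ => |u - ℓ| * Real.exp (-(u - ℓ) ^ 2)) :=
    nt_int1.comp_sub_right ℓ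
  have hi : Integrable (fun u : ℝ => R (ℓ / Λ) * Real.exp (-(u - ℓ) ^ 2) +
      K / Λ * (|u - ℓ| * Real.exp (-(u - ℓ) ^ 2))) := (hi0.const_mul _).add (hi1.const_mul _)
  have hcont : Continuous (fun u : ℝ => R (u / Λ) * Real.exp (-(u - ℓ) ^ 2)) :=
    (hc.comp (continuous_id.div_const Λ)).mul (by fun_prop)
  calc ∫ u in (0 : ℝ)..Λ, R (u / Λ) * Real.exp (-(u - ℓ) ^ 2)
      ≤ ∫ u in (0 : ℝ)..Λ, (R (ℓ / Λ) * Real.exp (-(u - ℓ) ^ 2) +
          K / Λ * (|u - ℓ| * Real.exp (-(u - ℓ) ^ 2))) := by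
        apply intervalIntegral.integral_mono_on hΛ.le (hcont.intervalIntegrable _ _)
          hi.intervalIntegrable
        intro u _
        have h1 := (le_abs_self _).trans (hlip (u / Λ) (ℓ / Λ))
        have h2 : |u / Λ - ℓ / Λ| = |u - ℓ| / Λ := by
          rw [← sub_div, abs_div, abs_of_pos hΛ]
        rw [h2] at h1
        have h3 : R (u / Λ) ≤ R (ℓ / Λ) + K / Λ * |u - ℓ| := by
          have : K * (|u - ℓ| / Λ) = K / Λ * |u - ℓ| := by ring
          linarith
        calc R (u / Λ) * Real.exp (-(u - ℓ) ^ 2)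
            ≤ (R (ℓ / Λ) + K / Λ * |u - ℓ|) * Real.exp (-(u - ℓ) ^ 2) :=
              mul_le_mul_of_nonneg_right h3 (Real.exp_pos _).le
          _ = _ := by ring
    _ = ∫ u in Set.Ioc (0 : ℝ) Λ, (R (ℓ / Λ) * Real.exp (-(u - ℓ) ^ 2) +
          K / Λ * (|u - ℓ| * Real.exp (-(u - ℓ) ^ 2))) := intervalIntegral.integral_of_le hΛ.le
    _ ≤ ∫ u : ℝ, (R (ℓ / Λ) * Real.exp (-(u - ℓ) ^ 2) +
          K / Λ * (|u - ℓ| * Real.exp (-(u - ℓ) ^ 2))) := by
        apply setIntegral_le_integral hi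
        refine Filter.Eventually.of_forall fun u => ?_
        have := hnn (ℓ / Λ)
        positivity
    _ = R (ℓ / Λ) * (∫ u : ℝ, Real.exp (-(u - ℓ) ^ 2)) +
          K / Λ * ∫ u : ℝ, |u - ℓ| * Real.exp (-(u - ℓ) ^ 2) := by
        rw [integral_add (hi0.const_mul _) (hi1.const_mul _), integral_const_mul,
          integral_const_mul]
    _ = Real.sqrt Real.pi * R (ℓ / Λ) + K / Λ * ntG := by
        rw [integral_sub_right_eq_self (fun v : ℝ => Real.exp (-v ^ 2)) ℓ,
          integral_sub_right_eq_self (fun v : ℝ => |v| * Real.exp (-v ^ 2)) ℓ, nt_gauss, ntG]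
        ring

theorem NW_In_tail {R : ℝ → ℝ} (hc : Continuous R) (B : ℝ) (hB : 0 ≤ B) (hle : ∀ α, R α ≤ B)
    (Λ ℓ : ℝ) (hΛ : 0 < Λ) (hℓ : 2 * Λ ≤ ℓ) :
    ∫ u in (0 : ℝ)..Λ, R (u / Λ) * Real.exp (-(u - ℓ) ^ 2) ≤
      B * Λ * Real.exp (-ℓ ^ 2 / 8) := by
  have hcont : Continuous (fun u : ℝ => R (u / Λ) * Real.exp (-(u - ℓ) ^ 2)) :=
    (hc.comp (continuous_id.div_const Λ)).mul (by fun_prop)
  calc ∫ u in (0 : ℝ)..Λ, R (u / Λ) * Real.exp (-(u - ℓ) ^ 2)
      ≤ ∫ u in (0 : ℝ)..Λ, B * Real.exp (-ℓ ^ 2 / 8) := by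
        apply intervalIntegral.integral_mono_on hΛ.le (hcont.intervalIntegrable _ _)
          (continuous_const.intervalIntegrable _ _)
        intro u hu
        have h1 : R (u / Λ) ≤ B := hle _
        have h2 : Real.exp (-(u - ℓ) ^ 2) ≤ Real.exp (-ℓ ^ 2 / 8) := by
          apply Real.exp_le_exp.2
          have h3 : u ≤ ℓ / 2 := by linarith [hu.2]
          have h4 : ℓ / 2 ≤ ℓ - u := by linarith
          have h5 : 0 ≤ ℓ / 2 := by linarith
          have h6 := mul_self_le_mul_self h5 h4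
          nlinarith
        exact mul_le_mul h1 h2 (Real.exp_pos _).le hB
    _ = B * Λ * Real.exp (-ℓ ^ 2 / 8) := by
        rw [intervalIntegral.integral_const, smul_eq_mul]; ring

theorem NW_int_bound {R : ℝ → ℝ} (hc : Continuous R) (hnn : ∀ α, 0 ≤ R α)
    (hz : ∀ α, 1 < α → R α = 0) (Λ : ℝ) (hΛ : 0 < Λ) (N : ℕ) (hN : 1 ≤ N)
    (hN2 : Real.log N ≤ 2 * Λ) :
    ∫ s in (0 : ℝ)..(Real.log N), s * R (s / Λ) ≤ Λ ^ 2 * (∫ α in (0 : ℝ)..1, α * R α) := by
  have hcont : Continuous (fun s : ℝ => s * R (s / Λ)) :=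
    continuous_id.mul (hc.comp (continuous_id.div_const Λ))
  have hlog0 : 0 ≤ Real.log N := Real.log_nonneg (by exact_mod_cast hN)
  have h1 : ∫ s in (0 : ℝ)..(Real.log N), s * R (s / Λ) ≤
      ∫ s in (0 : ℝ)..(2 * Λ), s * R (s / Λ) := by
    rw [← intervalIntegral.integral_add_adjacent_intervals
      (hcont.intervalIntegrable 0 (Real.log N)) (hcont.intervalIntegrable (Real.log N) (2 * Λ))]
    have : 0 ≤ ∫ s in (Real.log N)..(2 * Λ), s * R (s / Λ) := by
      apply intervalIntegral.integral_nonneg hN2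
      intro s hs
      exact mul_nonneg (by linarith [hs.1]) (hnn _)
    linarith
  refine h1.trans (le_of_eq ?_)
  have h2 : ∫ s in (0 : ℝ)..(2 * Λ), s * R (s / Λ) =
      Λ * ∫ α in (0 : ℝ)..2, (Λ * α) * R α := by
    have h3 := intervalIntegral.integral_comp_div (a := 0) (b := 2 * Λ)
      (fun α : ℝ => (Λ * α) * R α) hΛ.ne'
    rw [zero_div, mul_div_assoc, div_self hΛ.ne', mul_one, smul_eq_mul] at h3
    rw [← h3]
    refine intervalIntegral.integral_congr fun s _ => ?_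
    show s * R (s / Λ) = (Λ * (s / Λ)) * R (s / Λ)
    rw [mul_div_cancel₀ _ hΛ.ne']
  rw [h2]
  have hc2 : Continuous (fun α : ℝ => (Λ * α) * R α) := (by fun_prop : Continuous fun α : ℝ => Λ * α).mul hc
  have h4 : ∫ α in (1 : ℝ)..2, (Λ * α) * R α = 0 := by
    rw [intervalIntegral.integral_of_le (by norm_num)]
    rw [setIntegral_congr_fun (g := fun _ => (0 : ℝ)) measurableSet_Ioc]
    · simp
    · intro α hα
      simp only
      rw [hz α hα.1, mul_zero]
  have h5 : ∫ α in (0 : ℝ)..2, (Λ * α) * R α = ∫ α in (0 : ℝ)..1, (Λ * α) * R α := by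
    rw [← intervalIntegral.integral_add_adjacent_intervals
      (hc2.intervalIntegrable 0 1) (hc2.intervalIntegrable 1 2), h4, add_zero]
  rw [h5]
  have h6 : ∫ α in (0 : ℝ)..1, (Λ * α) * R α = Λ * ∫ α in (0 : ℝ)..1, α * R α := by
    rw [← intervalIntegral.integral_const_mul]
    exact intervalIntegral.integral_congr fun α _ => by ring
  rw [h6]
  ring

/-- Abel summation for a Lipschitz function, by induction -/
theorem NW_abel (w : ℕ → ℝ) (f : ℝ → ℝ) (hf : Continuous f) (k C0 : ℝ) (hk : 0 ≤ k) (hC0 : 0 ≤ C0)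
    (hlip : ∀ x y, |f x - f y| ≤ k * |x - y|)
    (h : ∀ n : ℕ, 1 ≤ n → |∑ m ∈ Finset.Icc 1 n, w m - (Real.log n) ^ 2 / 2| ≤
      C0 * (1 + Real.log n)) (N : ℕ) (hN : 1 ≤ N) :
    ∑ n ∈ Finset.Icc 1 N, w n * f (Real.log n) ≤
      f (Real.log N) * (∑ m ∈ Finset.Icc 1 N, w m - (Real.log N) ^ 2 / 2) +
      (∫ s in (0 : ℝ)..(Real.log N), s * f s) +
      k * (C0 * (Real.log N + (Real.log N) ^ 2 / 2) + (Real.log N) ^ 2 / 2) := by
  induction N, hN using Nat.le_induction with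
  | base => simp [mul_comm]
  | succ N hN ih =>
    rw [Finset.sum_Icc_succ_top (by omega), Finset.sum_Icc_succ_top (by omega)]
    set W : ℝ := ∑ m ∈ Finset.Icc 1 N, w m with hW
    set l : ℝ := Real.log (N : ℝ) with hl
    set l' : ℝ := Real.log ((N + 1 : ℕ) : ℝ) with hl'
    have hN0 : (0 : ℝ) < N := by exact_mod_cast hN
    have hl0 : 0 ≤ l := Real.log_nonneg (by exact_mod_cast hN)
    have hll : l ≤ l' := Real.log_le_log hN0 (by push_cast; linarith)
    have hll1 : l' - l ≤ 1 := by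
      have h1 : l' - l = Real.log (((N + 1 : ℕ) : ℝ) / N) := by
        rw [Real.log_div (by positivity) hN0.ne']
      rw [h1]
      have h2 : ((N + 1 : ℕ) : ℝ) / N ≤ 2 := by
        rw [div_le_iff₀ hN0]
        have : (1 : ℝ) ≤ N := by exact_mod_cast hN
        push_cast
        linarith
      have h3 := Real.log_le_sub_one_of_pos (by positivity : (0 : ℝ) < ((N + 1 : ℕ) : ℝ) / N)
      linarith
    have hE := h N hN
    have hc : Continuous (fun s : ℝ => s * f s) := continuous_id.mul hf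
    have hsplit : (∫ s in (0 : ℝ)..l', s * f s) = (∫ s in (0 : ℝ)..l, s * f s) +
        ∫ s in l..l', s * f s :=
      (intervalIntegral.integral_add_adjacent_intervals (hc.intervalIntegrable _ _)
        (hc.intervalIntegrable _ _)).symm
    -- the integral over the short interval
    have hint : f l' * ((l' ^ 2 - l ^ 2) / 2) - k * ((l' ^ 2 - l ^ 2) / 2) ≤ ∫ s in l..l', s * f s := by
      have e1 : f l' * ((l' ^ 2 - l ^ 2) / 2) - k * ((l' ^ 2 - l ^ 2) / 2) =
          ∫ s in l..l', s * (f l' - k) := by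
        rw [intervalIntegral.integral_mul_const, integral_id]
        ring
      rw [e1]
      apply intervalIntegral.integral_mono_on hll
        ((by fun_prop : Continuous fun s : ℝ => s * (f l' - k)).intervalIntegrable _ _)
        (hc.intervalIntegrable _ _)
      intro s hs
      have h1 := (abs_le.1 (hlip s l')).1
      have h2 : |s - l'| ≤ 1 := by
        rw [abs_le]
        constructor <;> linarith [hs.1, hs.2]
      have h3 : k * |s - l'| ≤ k * 1 := mul_le_mul_of_nonneg_left h2 hk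
      apply mul_le_mul_of_nonneg_left _ (hl0.trans hs.1)
      linarith
    -- the difference of the values
    have hd : -(k * C0 * ((l' - l) + (l' ^ 2 - l ^ 2) / 2)) ≤ (f l' - f l) * (W - l ^ 2 / 2) := by
      have h1 := hlip l' l
      rw [abs_of_nonneg (by linarith : 0 ≤ l' - l)] at h1
      have h2 : |(f l' - f l) * (W - l ^ 2 / 2)| ≤ (k * (l' - l)) * (C0 * (1 + l)) := by
        rw [abs_mul]
        exact mul_le_mul h1 hE (abs_nonneg _) (mul_nonneg hk (by linarith))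
      have h3 := (abs_le.1 h2).1
      have h4 : (l' - l) * (1 + l) ≤ (l' - l) + (l' ^ 2 - l ^ 2) / 2 := by nlinarith
      have h5 : k * C0 * ((l' - l) * (1 + l)) ≤ k * C0 * ((l' - l) + (l' ^ 2 - l ^ 2) / 2) :=
        mul_le_mul_of_nonneg_left h4 (mul_nonneg hk hC0)
      have h6 : (k * (l' - l)) * (C0 * (1 + l)) = k * C0 * ((l' - l) * (1 + l)) := by ring
      linarith
    rw [hsplit]
    nlinarith

theorem T_NW : S_NW := by
  intro R B hLR w hw0 hwz C0 h
  have hRc : Continuous R := NW_cont hLR.lip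
  obtain ⟨K, hK, hlip⟩ := hLR.lip
  have hC0 := nwa_C0 w C0 h
  have hsm : Summable (fun n : ℕ => w n * Real.exp (-(Real.log n) ^ 2 / 8)) :=
    nwa_summable w hw0 hwz C0 h
  set C2 : ℝ := ∑' n : ℕ, w n * Real.exp (-(Real.log n) ^ 2 / 8) with hC2
  have hC20 : 0 ≤ C2 := tsum_nonneg fun n => mul_nonneg (hw0 n) (Real.exp_pos _).le
  have hR0 : 0 ≤ B := (hLR.nonneg 0).trans (hLR.le 0)
  have hG0 := nt_G_nonneg
  have hpi0 : 0 ≤ Real.sqrt Real.pi := Real.sqrt_nonneg _
  have hnat : ∀ n : ℕ, 1 ≤ n → |∑ m ∈ Finset.Icc 1 n, w m - (Real.log n) ^ 2 / 2| ≤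
      C0 * (1 + Real.log n) := by
    intro n hn
    have h1 := h (n : ℝ) (by exact_mod_cast hn)
    rwa [Nat.floor_natCast] at h1
  have hlow : ∀ N : ℕ, 1 ≤ N → ∑ n ∈ Finset.Icc 1 N, w n ≤
      (Real.log N) ^ 2 / 2 + C0 * (Real.log N + 1) := by
    intro N hN
    have h1 := (abs_le.1 (hnat N hN)).2
    linarith
  refine ⟨Real.sqrt Real.pi * (3 * B * C0 + K * (4 * C0 + 2)) + (2 + 3 * C0) * K * ntG + B * C2 + 1,
    by positivity, fun Λ hΛ => ?_⟩
  have hΛ0 : 0 < Λ := by linarith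
  -- interchange
  have hsum : HasSum (fun n : ℕ => ∫ u in (0 : ℝ)..Λ, R (u / Λ) *
      (w n * Real.exp (-(u - Real.log n) ^ 2)))
      (∫ u in (0 : ℝ)..Λ, R (u / Λ) * ∑' n : ℕ, w n * Real.exp (-(u - Real.log n) ^ 2)) := by
    apply intervalIntegral.hasSum_integral_of_dominated_convergence
      (bound := fun n _ => B * Real.exp (Λ ^ 2) * (w n * Real.exp (-(Real.log n) ^ 2 / 8)))
    · intro n
      apply Continuous.aestronglyMeasurable
      exact (hRc.comp (continuous_id.div_const Λ)).mul (by fun_prop)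
    · intro n
      refine Filter.Eventually.of_forall fun u hu => ?_
      rw [Set.uIoc_of_le hΛ0.le] at hu
      have h1 : R (u / Λ) ≤ B := hLR.le _
      have h2 := nt_exp_le Λ u (Real.log n) hu.1.le hu.2
      rw [Real.norm_of_nonneg (mul_nonneg (hLR.nonneg _) (mul_nonneg (hw0 n) (Real.exp_pos _).le))]
      calc R (u / Λ) * (w n * Real.exp (-(u - Real.log n) ^ 2))
          ≤ B * (w n * (Real.exp (Λ ^ 2) * Real.exp (-(Real.log n) ^ 2 / 8))) := by
            apply mul_le_mul h1 (mul_le_mul_of_nonneg_left h2 (hw0 n))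
              (mul_nonneg (hw0 n) (Real.exp_pos _).le) hR0
        _ = _ := by ring
    · exact Filter.Eventually.of_forall fun u _ => hsm.mul_left _
    · exact continuous_const.intervalIntegrable _ _
    · refine Filter.Eventually.of_forall fun u hu => ?_
      rw [Set.uIoc_of_le hΛ0.le] at hu
      apply HasSum.mul_left
      apply Summable.hasSum
      refine Summable.of_nonneg_of_le (fun n => mul_nonneg (hw0 n) (Real.exp_pos _).le)
        (fun n => ?_) (hsm.mul_left (Real.exp (Λ ^ 2)))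
      have h2 := nt_exp_le Λ u (Real.log n) hu.1.le hu.2
      calc w n * Real.exp (-(u - Real.log n) ^ 2)
          ≤ w n * (Real.exp (Λ ^ 2) * Real.exp (-(Real.log n) ^ 2 / 8)) :=
            mul_le_mul_of_nonneg_left h2 (hw0 n)
        _ = _ := by ring
  set N : ℕ := ⌊Real.exp (2 * Λ)⌋₊ with hNdef
  have hN : 1 ≤ N := by
    rw [hNdef, Nat.one_le_floor_iff]
    exact Real.one_le_exp (by linarith)
  have hNlog : Real.log N ≤ 2 * Λ := by
    rw [Real.log_le_iff_le_exp (by exact_mod_cast hN)]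
    exact Nat.floor_le (Real.exp_pos _).le
  -- termwise bound
  have hterm : ∀ n : ℕ, ∫ u in (0 : ℝ)..Λ, R (u / Λ) *
      (w n * Real.exp (-(u - Real.log n) ^ 2)) ≤
      (if n ∈ Finset.Icc 1 N then
        w n * (Real.sqrt Real.pi * R (Real.log n / Λ) + K / Λ * ntG) else 0) +
      B * Λ * (w n * Real.exp (-(Real.log n) ^ 2 / 8)) := by
    intro n
    have h1 : ∫ u in (0 : ℝ)..Λ, R (u / Λ) * (w n * Real.exp (-(u - Real.log n) ^ 2)) =
        w n * ∫ u in (0 : ℝ)..Λ, R (u / Λ) * Real.exp (-(u - Real.log n) ^ 2) := by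
      rw [← intervalIntegral.integral_const_mul]
      exact intervalIntegral.integral_congr fun u _ => by ring
    rw [h1]
    have hB : 0 ≤ B * Λ * (w n * Real.exp (-(Real.log n) ^ 2 / 8)) :=
      mul_nonneg (mul_nonneg hR0 hΛ0.le) (mul_nonneg (hw0 n) (Real.exp_pos _).le)
    split_ifs with hn
    · have h2 := mul_le_mul_of_nonneg_left
        (NW_In_bound hRc hLR.nonneg K hK hlip Λ (Real.log n) hΛ0) (hw0 n)
      linarith
    · rcases Nat.eq_zero_or_pos n with rfl | hn0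
      · rw [hwz]; simp
      · have hnN : N < n := by
          by_contra hc
          exact hn (Finset.mem_Icc.2 ⟨hn0, not_lt.1 hc⟩)
        have h3 : Real.exp (2 * Λ) < n := Nat.lt_of_floor_lt hnN
        have h4 : 2 * Λ ≤ Real.log n := by
          rw [Real.le_log_iff_exp_le (by exact_mod_cast hn0)]
          exact h3.le
        have h2 := mul_le_mul_of_nonneg_left
          (NW_In_tail hRc B hR0 hLR.le Λ (Real.log n) hΛ0 h4) (hw0 n)
        rw [zero_add]
        calc _ ≤ _ := h2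
          _ = _ := by ring
  have hA : HasSum (fun n : ℕ => if n ∈ Finset.Icc 1 N then
        w n * (Real.sqrt Real.pi * R (Real.log n / Λ) + K / Λ * ntG) else 0)
      (∑ n ∈ Finset.Icc 1 N, w n * (Real.sqrt Real.pi * R (Real.log n / Λ) + K / Λ * ntG)) := by
    have h : HasSum (fun n : ℕ => if n ∈ Finset.Icc 1 N then
        w n * (Real.sqrt Real.pi * R (Real.log n / Λ) + K / Λ * ntG) else 0)
        (∑ n ∈ Finset.Icc 1 N, if n ∈ Finset.Icc 1 N then
        w n * (Real.sqrt Real.pi * R (Real.log n / Λ) + K / Λ * ntG) else 0) :=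
      hasSum_sum_of_ne_finset_zero (fun n hn => if_neg hn)
    rw [Finset.sum_congr rfl (fun n hn => if_pos hn)] at h
    exact h
  have hB : HasSum (fun n : ℕ => B * Λ * (w n * Real.exp (-(Real.log n) ^ 2 / 8)))
      (B * Λ * C2) := hsm.hasSum.mul_left _
  have hle := hasSum_le hterm hsum (hA.add hB)
  refine hle.trans ?_
  -- main term
  have hsplit : ∑ n ∈ Finset.Icc 1 N, w n * (Real.sqrt Real.pi * R (Real.log n / Λ) +
      K / Λ * ntG) = Real.sqrt Real.pi * ∑ n ∈ Finset.Icc 1 N, w n * R (Real.log n / Λ) +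
      K / Λ * ntG * ∑ n ∈ Finset.Icc 1 N, w n := by
    rw [Finset.mul_sum, Finset.mul_sum, ← Finset.sum_add_distrib]
    exact Finset.sum_congr rfl fun n _ => by ring
  have habel := NW_abel w (fun s => R (s / Λ)) (hRc.comp (continuous_id.div_const Λ)) (K / Λ) C0
    (by positivity) hC0 (fun x y => by
      refine (hlip (x / Λ) (y / Λ)).trans (le_of_eq ?_)
      rw [← sub_div, abs_div, abs_of_pos hΛ0]
      ring) hnat N hN
  have hint := NW_int_bound hRc hLR.nonneg hLR.zero Λ hΛ0 N hN hNlog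
  have hlN0 : 0 ≤ Real.log N := Real.log_nonneg (by exact_mod_cast hN)
  have hlN2 : (Real.log N) ^ 2 ≤ (2 * Λ) ^ 2 := pow_le_pow_left₀ hlN0 hNlog 2
  have hS : ∑ n ∈ Finset.Icc 1 N, w n ≤ (2 + 3 * C0) * Λ ^ 2 := by
    have h1 := hlow N hN
    have h4 : C0 * (Real.log N + 1) ≤ C0 * (3 * Λ ^ 2) := by
      apply mul_le_mul_of_nonneg_left _ hC0
      nlinarith
    nlinarith
  have hKL : K / Λ * ntG * ∑ n ∈ Finset.Icc 1 N, w n ≤ (2 + 3 * C0) * K * ntG * Λ := by
    calc K / Λ * ntG * ∑ n ∈ Finset.Icc 1 N, w n ≤ K / Λ * ntG * ((2 + 3 * C0) * Λ ^ 2) :=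
          mul_le_mul_of_nonneg_left hS (by positivity)
      _ = (2 + 3 * C0) * K * ntG * Λ := by field_simp
  have hE1 : R (Real.log N / Λ) * (∑ m ∈ Finset.Icc 1 N, w m - (Real.log N) ^ 2 / 2) ≤
      3 * B * C0 * Λ := by
    have h1 := (abs_le.1 (hnat N hN)).2
    have h2 : C0 * (1 + Real.log N) ≤ C0 * (3 * Λ) := mul_le_mul_of_nonneg_left (by linarith) hC0
    calc R (Real.log N / Λ) * (∑ m ∈ Finset.Icc 1 N, w m - (Real.log N) ^ 2 / 2)
        ≤ R (Real.log N / Λ) * (C0 * (3 * Λ)) :=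
          mul_le_mul_of_nonneg_left (h1.trans h2) (hLR.nonneg _)
      _ ≤ B * (C0 * (3 * Λ)) := mul_le_mul_of_nonneg_right (hLR.le _) (by positivity)
      _ = _ := by ring
  have hE2 : K / Λ * (C0 * (Real.log N + (Real.log N) ^ 2 / 2) + (Real.log N) ^ 2 / 2) ≤
      K * (4 * C0 + 2) * Λ := by
    have h1 : C0 * (Real.log N + (Real.log N) ^ 2 / 2) + (Real.log N) ^ 2 / 2 ≤
        (4 * C0 + 2) * Λ ^ 2 := by
      have h2 : Real.log N + (Real.log N) ^ 2 / 2 ≤ 4 * Λ ^ 2 := by nlinarith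
      have h3 := mul_le_mul_of_nonneg_left h2 hC0
      nlinarith
    calc K / Λ * (C0 * (Real.log N + (Real.log N) ^ 2 / 2) + (Real.log N) ^ 2 / 2)
        ≤ K / Λ * ((4 * C0 + 2) * Λ ^ 2) := mul_le_mul_of_nonneg_left h1 (by positivity)
      _ = K * (4 * C0 + 2) * Λ := by field_simp
  have hmain : Real.sqrt Real.pi * ∑ n ∈ Finset.Icc 1 N, w n * R (Real.log n / Λ) ≤
      Real.sqrt Real.pi * (Λ ^ 2 * (∫ α in (0 : ℝ)..1, α * R α) + 3 * B * C0 * Λ +
        K * (4 * C0 + 2) * Λ) :=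
    mul_le_mul_of_nonneg_left (by linarith) hpi0
  rw [hsplit]
  nlinarith

end Pool.Agent.T2H63.CZ
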